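import Pool.Agent.helper9.TH.Spec

namespace Pool.Agent.helper9.TH

universe u

/-- A finite nilpotent group has a normal `r`-complement. -/
theorem nilp_PN (r : ℕ) (hr : r.Prime) (H : Type u) [Group H] [Finite H]
    (hH : Group.IsNilpotent H) : PN r H := by
  classical
  have hsyl : ∀ (q : ℕ) (_ : Fact q.Prime) (P : Sylow q H), (P : Subgroup H).Normal :=
    ((Group.isNilpotent_of_finite_tfae (G := H)).out 0 3).1 hH
  -- a maximal normal subgroup of order prime to `r`
  have hfin : {K : Subgroup H | K.Normal ∧ (Nat.card K).Coprime r}.Finite := Set.toFinite _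
  obtain ⟨K, hK⟩ := hfin.exists_maximal ⟨⊥, ⟨inferInstance, by simp⟩⟩
  obtain ⟨⟨hKn, hKc⟩, hKm⟩ := hK
  refine ⟨K, hKn, hKc, ?_⟩
  have hdiv : ∀ q : ℕ, q.Prime → q ∣ K.index → q = r := by
    intro q hq hqd
    by_contra hne
    have : Fact q.Prime := ⟨hq⟩
    obtain ⟨P⟩ : Nonempty (Sylow q H) := inferInstance
    have := hsyl q ⟨hq⟩ P
    have hPc : (Nat.card P).Coprime r := by
      obtain ⟨k, hk⟩ := IsPGroup.iff_card.1 P.isPGroup'
      have hk' : Nat.card P = q ^ k := hk
      rw [hk']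
      exact Nat.Coprime.pow_left _ ((Nat.coprime_primes hq hr).2 hne)
    have hsup : (K ⊔ (P : Subgroup H)) ∈ {K : Subgroup H | K.Normal ∧ (Nat.card K).Coprime r} := by
      refine ⟨inferInstance, ?_⟩
      have h1 : Nat.card (K ⊔ (P : Subgroup H) : Subgroup H) ∣ Nat.card K * Nat.card P := by
        have h2 := Subgroup.card_mul_index (K ⊔ (P : Subgroup H))
        have h3 := Subgroup.card_mul_index K
        have h5 := Subgroup.relIndex_sup_right (P : Subgroup H) K
        have h6 : K.relIndex (P : Subgroup H) ∣ Nat.card P := Subgroup.relIndex_dvd_card K P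
        have h7 : K.relIndex (K ⊔ (P : Subgroup H)) * Nat.card K =
            Nat.card (K ⊔ (P : Subgroup H) : Subgroup H) := by
          have h8 := Subgroup.relIndex_mul_relIndex ⊥ K (K ⊔ (P : Subgroup H)) bot_le le_sup_left
          rw [Subgroup.relIndex_bot_left, Subgroup.relIndex_bot_left] at h8
          rw [mul_comm]; exact h8
        rw [← h7, mul_comm]
        have h9 : K.relIndex (K ⊔ (P : Subgroup H)) ∣ Nat.card P := by
          rw [sup_comm]
          rw [h5]
          exact h6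
        exact Nat.mul_dvd_mul_left _ h9
      exact Nat.Coprime.coprime_dvd_left h1 (Nat.Coprime.mul_left hKc hPc)
    have hle : K ⊔ (P : Subgroup H) ≤ K := hKm hsup le_sup_left
    have hPK : (P : Subgroup H) ≤ K := le_trans le_sup_right hle
    have h10 : K.index ∣ (P : Subgroup H).index := Subgroup.index_dvd_of_le hPK
    exact P.not_dvd_index (dvd_trans hqd h10)
  have h0 : K.index ≠ 0 := Subgroup.index_ne_zero_of_finite
  exact ⟨_, Nat.eq_prime_pow_of_unique_prime_dvd h0 (fun {d} hd hdd => hdiv d hd hdd)⟩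

/-- The main step: `N_R(X)` has a normal `r`-complement. -/
theorem KB_step (hPa : PBa_stmt.{u}) (p : ℕ) (T : Type u) [Group T] [Finite T] (R : Subgroup T)
    (a : T) (hR : R.Normal) (hspl : Spl p a R) (hIH : KIH.{u} p (Nat.card R))
    (hmin : ∀ M : Subgroup T, M.Normal → M ≤ R → M = ⊥ ∨ M = R)
    (r : ℕ) [hr : Fact r.Prime] (S : Sylow r R) (hnr : ¬ IsPGroup r R)
    (X : Subgroup R) (hX0 : X ≠ ⊥) (hXp : IsPGroup r X)
    (hX : Subgroup.normalizer (((S : Subgroup R).map R.subtype : Subgroup T) : Set T) ≤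
      Subgroup.normalizer ((X.map R.subtype : Subgroup T) : Set T)) :
    PN r (Subgroup.normalizer (X : Set R)) := by
  set X' : Subgroup T := X.map R.subtype with hX'
  set N : Subgroup T := Subgroup.normalizer (X' : Set T) with hN
  have hX'R : X' ≤ R := by
    rw [hX']
    exact Subgroup.map_subtype_le X
  have hnn : ¬ X'.Normal := by
    intro hn
    rcases hmin X' hn hX'R with h | h
    · exact hX0 ((Subgroup.map_eq_bot_iff_of_injective X R.subtype_injective).1 h)
    · apply hnr
      have h1 : IsPGroup r X' := hXp.map R.subtype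
      rw [h] at h1
      exact h1
  have hfr : Subgroup.normalizer (((S : Subgroup R).map R.subtype : Subgroup T) : Set T) ⊔ R = ⊤ :=
    Sylow.normalizer_sup_eq_top S
  have hfr2 : N ⊔ R = ⊤ := top_le_iff.1 (hfr ▸ sup_le_sup_right hX R)
  have hRN : ¬ R ≤ N := by
    intro h
    apply hnn
    rw [sup_of_le_left h] at hfr2
    exact Subgroup.normalizer_eq_top_iff.1 hfr2
  have ha : a ∈ N ⊔ R := by rw [hfr2]; exact Subgroup.mem_top a
  obtain ⟨t, htN, r₀, hr₀, htr⟩ := Subgroup.mem_sup_of_normal_right.1 ha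
  have hcard : Nat.card (R.subgroupOf N) < Nat.card R := by
    by_contra hlt
    apply hRN
    have h1 : Nat.card (R.subgroupOf N) = Nat.card (R ⊓ N : Subgroup T) := by
      rw [← Subgroup.inf_subgroupOf_right]
      exact Nat.card_congr (Subgroup.subgroupOfEquivOfLe inf_le_right).toEquiv
    rw [h1] at hlt
    have h2 := Subgroup.eq_of_le_of_card_ge (inf_le_left : R ⊓ N ≤ R) (not_lt.1 hlt)
    rw [← h2]
    exact inf_le_right
  have hRn : (R.subgroupOf N).Normal := inferInstance
  have hspl' : Spl p (⟨t, htN⟩ : N) (R.subgroupOf N) := by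
    intro y hy
    apply Subtype.ext
    have h1 : ((y : N) : T) ∈ R := hy
    have h2 := hspl (r₀⁻¹ * (y : T)) (R.mul_mem (R.inv_mem hr₀) h1)
    rw [← htr] at h2
    have h3 : t * r₀ * (r₀⁻¹ * (y : T)) = t * (y : T) := by group
    rw [h3] at h2
    simpa using h2
  have hnil := hIH N (R.subgroupOf N) ⟨t, htN⟩ hRn hspl' hcard
  have hPN := nilp_PN r hr.out _ hnil
  have hmem : ∀ x : R, x ∈ Subgroup.normalizer (X : Set R) → (x : T) ∈ N := by
    intro x hx
    have h1 := Subgroup.le_normalizer_map (H := X) R.subtype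
    exact h1 ⟨x, hx, rfl⟩
  let f : Subgroup.normalizer (X : Set R) →* R.subgroupOf N :=
    { toFun := fun x => ⟨⟨((x : R) : T), hmem x x.2⟩, (x : R).2⟩
      map_one' := rfl
      map_mul' := fun _ _ => rfl }
  refine hPa.1 r _ _ hr.out f ?_ hPN
  intro x y hxy
  apply Subtype.ext
  apply Subtype.ext
  exact congrArg (fun z : R.subgroupOf N => ((z : N) : T)) hxy

theorem KB (hTH : TH_stmt.{u}) (hJa : JBa_stmt.{u}) (hJb : JBb_stmt.{u}) (hPa : PBa_stmt.{u})
    (hPb : PBb_stmt.{u}) : KB_stmt.{u} := by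
  classical
  intro p T _ _ R a hp hR hspl hIH hmin
  by_cases h2 : ∀ r : ℕ, r.Prime → r ∣ Nat.card R → r = 2
  · have h0 : Nat.card R ≠ 0 := Nat.card_pos.ne'
    have h1 := Nat.eq_prime_pow_of_unique_prime_dvd h0 (fun {d} hd hdd => h2 d hd hdd)
    have h3 : IsPGroup 2 R := IsPGroup.of_card h1
    have : Fact (Nat.Prime 2) := ⟨Nat.prime_two⟩
    exact h3.isNilpotent
  push Not at h2
  obtain ⟨r, hr, hrd, hr2⟩ := h2
  have : Fact r.Prime := ⟨hr⟩
  by_cases hnr : IsPGroup r R
  · exact hnr.isNilpotent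
  obtain ⟨S⟩ : Nonempty (Sylow r R) := inferInstance
  have hSp : IsPGroup r (S : Subgroup R) := S.isPGroup'
  have hS0 : (S : Subgroup R) ≠ ⊥ := by
    intro h
    have h1 := S.card_eq_multiplicity
    have h3 : Nat.card S = 1 := by
      have : Nat.card (S : Subgroup R) = 1 := by rw [h]; simp
      exact this
    rw [h3] at h1
    have h4 : r ∣ r ^ (Nat.card R).factorization r := by
      apply dvd_pow_self
      exact (hr.factorization_pos_of_dvd Nat.card_pos.ne' hrd).ne'
    rw [← h1] at h4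
    exact hr.one_lt.ne' (Nat.dvd_one.1 h4)
  obtain ⟨hJ1, hJ2, hJ3, hJ4, hJ5, hJ6⟩ := hJa
  have hA : PN r (Subgroup.normalizer (JJ r (S : Subgroup R) : Set R)) := by
    refine KB_step hPa p T R a hR hspl hIH hmin r S hnr _ (hJb.1 r R S hr hSp hS0)
      (hSp.to_le (hJ1 r R S)) ?_
    rw [← hJ3 r R T R.subtype S R.subtype_injective]
    exact hJ5 r T _
  have hB : PN r (Subgroup.normalizer (OZ r (S : Subgroup R) : Set R)) := by
    refine KB_step hPa p T R a hR hspl hIH hmin r S hnr _ (hJb.2.1 r R S hr hSp hS0)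
      (hSp.to_le (hJ2 r R S)) ?_
    rw [← hJ4 r R T R.subtype S R.subtype_injective]
    exact hJ6 r T _
  have hPN : PN r R := hTH r R S hr hr2 ⟨⟨hSp, S.not_dvd_index⟩, hA, hB⟩
  obtain ⟨K, hKn, hKc, k, hk⟩ := hPN
  have hKchar := hPb.1 r R K hr hKn hKc ⟨k, hk⟩
  have hK' : (K.map R.subtype).Normal := by
    constructor
    rintro _ ⟨x, hx, rfl⟩ g
    have hx' : x ∈ K := hx
    refine ⟨⟨g * (x : T) * g⁻¹, hR.conj_mem _ x.2 g⟩, ?_, rfl⟩
    show (_ : R) ∈ K
    rw [hKchar]
    have h1 := (hKchar x).1 hx'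
    have h3 : orderOf (⟨g * (x : T) * g⁻¹, hR.conj_mem _ x.2 g⟩ : R) = orderOf x := by
      rw [← Subgroup.orderOf_coe, ← Subgroup.orderOf_coe x]
      exact orderOf_injective (MulAut.conj g).toMonoidHom (MulAut.conj g).injective (x : T)
    rw [h3]
    exact h1
  rcases hmin _ hK' (Subgroup.map_subtype_le K) with h | h
  · have h1 : K = ⊥ := (Subgroup.map_eq_bot_iff_of_injective K R.subtype_injective).1 h
    exfalso
    apply hnr
    rw [h1, Subgroup.index_bot] at hk
    exact IsPGroup.of_card hk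
  · exfalso
    have h1 : Nat.card K = Nat.card R := by
      have h3 : Nat.card (K.map R.subtype) = Nat.card K :=
        Subgroup.card_map_of_injective R.subtype_injective
      rw [← h3, h]
    rw [h1] at hKc
    exact hr.one_lt.ne' (Nat.dvd_one.1 (hKc ▸ Nat.dvd_gcd hrd dvd_rfl))

end Pool.Agent.helper9.TH
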