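import Pool.Agent.helper9.TH.Spec

namespace Pool.Agent.helper9.TH

universe u

theorem PBb_one (p : ℕ) (G : Type u) [Group G] [Finite G] (K : Subgroup G) (_ : p.Prime)
    (hKn : K.Normal) (hKc : (Nat.card K).Coprime p) (hk : ∃ k : ℕ, K.index = p ^ k) (x : G) :
    x ∈ K ↔ (orderOf x).Coprime p := by
  obtain ⟨k, hk⟩ := hk
  constructor
  · intro hx
    have h1 : orderOf (⟨x, hx⟩ : K) ∣ Nat.card K := orderOf_dvd_natCard _
    have h2 : orderOf (⟨x, hx⟩ : K) = orderOf x := by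
      rw [← Subgroup.orderOf_coe]
    rw [h2] at h1
    exact Nat.Coprime.coprime_dvd_left h1 hKc
  · intro hx
    have h1 : orderOf ((QuotientGroup.mk' K) x) ∣ orderOf x := orderOf_map_dvd _ _
    have h2 : orderOf ((QuotientGroup.mk' K) x) ∣ Nat.card (G ⧸ K) := orderOf_dvd_natCard _
    have h3 : Nat.card (G ⧸ K) = p ^ k := hk
    rw [h3] at h2
    have h4 : orderOf ((QuotientGroup.mk' K) x) = 1 :=
      Nat.eq_one_of_dvd_coprimes (Nat.Coprime.pow_right k hx) h1 h2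
    rw [orderOf_eq_one_iff] at h4
    rwa [← MonoidHom.mem_ker, QuotientGroup.ker_mk'] at h4

theorem PBb_two (p : ℕ) (G : Type u) [Group G] [Finite G] (K D : Subgroup G) (_ : p.Prime)
    (hKn : K.Normal) (hKc : (Nat.card K).Coprime p) (hDn : D.Normal) (hD : IsPGroup p D)
    (x : G) (hx : x ∈ K) (y : G) (hy : y ∈ D) : x * y = y * x := by
  have hcK : x * y * x⁻¹ * y⁻¹ ∈ K := by
    have h := K.mul_mem hx (hKn.conj_mem _ (K.inv_mem hx) y)
    have e : x * (y * x⁻¹ * y⁻¹) = x * y * x⁻¹ * y⁻¹ := by group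
    rwa [e] at h
  have hcD : x * y * x⁻¹ * y⁻¹ ∈ D := D.mul_mem (hDn.conj_mem _ hy x) (D.inv_mem hy)
  set c := x * y * x⁻¹ * y⁻¹ with hc
  have h1 : orderOf c ∣ Nat.card K := by
    have h1 : orderOf (⟨c, hcK⟩ : K) ∣ Nat.card K := orderOf_dvd_natCard _
    have h2 : orderOf (⟨c, hcK⟩ : K) = orderOf c := by
      rw [← Subgroup.orderOf_coe]
    rwa [h2] at h1
  obtain ⟨k, hk⟩ := hD ⟨c, hcD⟩
  have h2 : orderOf c ∣ p ^ k := by
    apply orderOf_dvd_of_pow_eq_one
    exact congrArg (fun z : D => (z : G)) hk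
  have h3 : orderOf c = 1 := Nat.eq_one_of_dvd_coprimes (Nat.Coprime.pow_right k hKc) h1 h2
  rw [orderOf_eq_one_iff] at h3
  have h4 : x * y * x⁻¹ * y⁻¹ = 1 := h3
  calc x * y = (x * y * x⁻¹ * y⁻¹) * (y * x) := by group
    _ = y * x := by rw [h4, one_mul]

theorem PBbself : PBb_stmt.{u} := by
  refine ⟨?_, ?_, ?_⟩
  · intro p G _ _ K hp hKn hKc hk x
    exact PBb_one p G K hp hKn hKc hk x
  · intro p G _ _ K D hp hKn hKc hDn hD x hx y hy
    exact PBb_two p G K D hp hKn hKc hDn hD x hx y hy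
  · rintro p G _ _ H hp hHn ⟨j, hj⟩ ⟨K, hKn, hKc, k, hk⟩
    have hchar := PBb_one p H K hp hKn hKc ⟨k, hk⟩
    refine ⟨K.map H.subtype, ?_, ?_, k + j, ?_⟩
    · constructor
      rintro _ ⟨x, hx, rfl⟩ g
      have hx' : x ∈ K := hx
      refine ⟨⟨g * (x : G) * g⁻¹, hHn.conj_mem _ x.2 g⟩, ?_, rfl⟩
      show (_ : H) ∈ K
      rw [hchar]
      have h1 := (hchar x).1 hx'
      have h3 : orderOf (⟨g * (x : G) * g⁻¹, hHn.conj_mem _ x.2 g⟩ : H) = orderOf x := by
        rw [← Subgroup.orderOf_coe, ← Subgroup.orderOf_coe x]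
        exact orderOf_injective (MulAut.conj g).toMonoidHom (MulAut.conj g).injective (x : G)
      rw [h3]
      exact h1
    · have h3 : Nat.card (K.map H.subtype) = Nat.card K :=
        Subgroup.card_map_of_injective H.subtype_injective
      rw [h3]
      exact hKc
    · rw [Subgroup.index_map_subtype, hk, hj, pow_add]

end Pool.Agent.helper9.TH
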