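import Pool.Agent.helper9.TH.Main
import Pool.Agent.helper9.TH.KB
import Pool.Agent.helper43.TH.PBa
import Pool.Agent.helper9.TH.PBbself
import Pool.Agent.helper51.TH.FU
import Pool.Agent.helper99.TH.FC
import Pool.Agent.helper37.TH.FR
import Pool.Agent.helper55.TH.JBa
import Pool.Agent.helper15.TH.JBb
import Pool.Agent.helper51.TH.S1
import Pool.Agent.helper89.TH.S2
import Pool.Agent.helper35.TH.S3
import Pool.Agent.helper94.TH.S4
import Pool.Agent.helper75.TH.S5
import Pool.Agent.helper57.TH.S6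
import Pool.Agent.helper32.TH.S7a
import Pool.Agent.helper28.TH.S7b
import Pool.Agent.helper73.TH.S8
import Pool.Agent.helper6.TH.S9
import Pool.Agent.helper67.TH.T5g
import Pool.Agent.helper36.TH.T5y
import Pool.Agent.helper22.TH.T5q
import Pool.Agent.helper65.TH.T5t
import Pool.Agent.helper72.TH.S10
import Pool.Agent.helper98.TH.TH
import Pool.Agent.helper58.TH.LA
import Pool.Agent.helper41.TH.KM1
import Pool.Agent.helper52.TH.KM2
import Pool.Agent.helper14.TH.MNE
import Pool.Agent.helper9.TH.KGself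
import Pool.Agent.helper31.TH.CQ
import Pool.Agent.helper18.TH.GL2

namespace Pool.Agent.helper9.TH

universe u

/-- Thompson's theorem. -/
theorem thompson : TH_stmt.{u} := by
  have hPa : PBa_stmt.{u} := Pool.Agent.helper43.TH.PBa
  have hPb : PBb_stmt.{u} := PBbself
  have hFU : FU_stmt.{u} := Pool.Agent.helper51.TH.FU hPb
  have hFC : FC_stmt.{u} := Pool.Agent.helper99.TH.FC hFU hPb
  have hFR : FR_stmt.{u} := Pool.Agent.helper37.TH.FR hFC hPa hPb
  have hJa : JBa_stmt.{u} := Pool.Agent.helper55.TH.JBa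
  have hJb : JBb_stmt.{u} := Pool.Agent.helper15.TH.JBb
  have hS1 : S1_stmt.{u} := Pool.Agent.helper51.TH.S1 hPa hJa
  have hS2 : S2_stmt.{u} := Pool.Agent.helper89.TH.S2 hFR hS1 hJa hJb hPa
  have hS3 : S3_stmt.{u} := Pool.Agent.helper35.TH.S3 hS1 hJa hJb hPa
  have hS4 : S4_stmt.{u} := Pool.Agent.helper94.TH.S4 hJa hPa
  have hS5 : S5_stmt.{u} := Pool.Agent.helper75.TH.S5 hPb
  have hS6 : S6_stmt.{u} := Pool.Agent.helper57.TH.S6 hS1 hPb
  have hS7b : S7b_stmt.{u} := Pool.Agent.helper28.TH.S7b Pool.Agent.helper32.TH.S7a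
  have hS8 : S8_stmt.{u} := Pool.Agent.helper73.TH.S8 hPa hPb
  have hS9 : S9_stmt.{u} := Pool.Agent.helper6.TH.S9 hJa hJb hPa
  have hq : T5q_stmt.{u} :=
    Pool.Agent.helper22.TH.T5q Pool.Agent.helper67.TH.T5g Pool.Agent.helper36.TH.T5y
  have hS10 : S10_stmt.{u} := Pool.Agent.helper72.TH.S10 hq Pool.Agent.helper65.TH.T5t
  exact Pool.Agent.helper98.TH.TH hS2 hS3 hS4 hS5 hS6 hS7b hS8 hS9 hS10

/-- Kegel's theorem. -/
theorem kegel : KG_stmt.{u} := by
  have hPa : PBa_stmt.{u} := Pool.Agent.helper43.TH.PBa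
  have hPb : PBb_stmt.{u} := PBbself
  have hJa : JBa_stmt.{u} := Pool.Agent.helper55.TH.JBa
  have hJb : JBb_stmt.{u} := Pool.Agent.helper15.TH.JBb
  have hKB : KB_stmt.{u} := KB thompson hJa hJb hPa hPb
  have hKM2 : KM2_stmt.{u} := Pool.Agent.helper52.TH.KM2 (Pool.Agent.helper41.TH.KM1
    Pool.Agent.helper58.TH.LA)
  exact KGself hKB hKM2 Pool.Agent.helper14.TH.MNE

/-- The final theorem. -/
theorem final {G : Type u} [Group G] [Infinite G]
    (a b : G) (hgen : Subgroup.closure ({a, b} : Set G) = ⊤)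
    (p : ℕ) (hp : p.Prime) (x : G)
    (hq : ∀ m : ℕ, ∃ N : Subgroup G, N.Normal ∧ N.FiniteIndex ∧ m ≤ N.index ∧ x ^ p ∈ N)
    (hx : (x ∈ Subgroup.zpowers a ∧
        (((Subgroup.centralizer ({x} : Set G) : Subgroup G) : Set G).Finite ∨
          ∃ h : G, (Subgroup.closure ({x, h⁻¹ * b * h} : Set G) : Set G).Infinite)) ∨
      (x ∈ Subgroup.zpowers b ∧
        (((Subgroup.centralizer ({x} : Set G) : Subgroup G) : Set G).Finite ∨
          ∃ h : G, (Subgroup.closure ({a, h⁻¹ * x * h} : Set G) : Set G).Infinite))) :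
    {g : G | (Subgroup.closure ({a, g⁻¹ * b * g} : Set G) : Set G).Infinite}.Infinite :=
  main Pool.Agent.helper31.TH.CQ kegel Pool.Agent.helper18.TH.GL2 a b hgen p hp x hq hx

end Pool.Agent.helper9.TH
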