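import Pool.Agent.helper9.TH.Spec

namespace Pool.Agent.helper9.TH

universe u

/-- Row GL1 with a power `x` of `a` of prime order with finite centralizer instead of `a`. -/
theorem GLX (hCQ : CQ_stmt.{u}) (hKG : KG_stmt.{u}) (p : ℕ) {G : Type u} [Group G] [Infinite G]
    (a b x : G) (hp : p.Prime) (hgen : Subgroup.closure ({a, b} : Set G) = ⊤)
    (hx : x ∈ Subgroup.zpowers a)
    (hC : ((Subgroup.centralizer ({x} : Set G) : Subgroup G) : Set G).Finite)
    (hD : {g : G | (Subgroup.closure ({a, g⁻¹ * b * g} : Set G) : Set G).Infinite}.Finite) :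
    ∃ N₀ : Subgroup G, N₀.Normal ∧ N₀.FiniteIndex ∧ x ^ p ∈ N₀ ∧
      ∀ (N : Subgroup G) [N.Normal], N.FiniteIndex → N ≤ N₀ → x ^ p ∈ N →
        Group.IsNilpotent (N₀.map (QuotientGroup.mk' N)) := by
  classical
  have hCf : Finite (Subgroup.centralizer ({x} : Set G)) := hC
  -- step 1
  have step1 : ∀ (N : Subgroup G) [N.Normal], N.FiniteIndex →
      Nat.card (Subgroup.centralizer ({(QuotientGroup.mk' N) x} : Set (G ⧸ N))) ≤
        Nat.card (Subgroup.centralizer ({x} : Set G)) := by
    intro N hN hNfi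
    have hNinf : (N : Set G).Infinite := by
      intro hn
      have h0 : Finite N := hn.to_subtype
      have h1 : Finite G := Finite.of_subgroup_quotient N
      exact not_finite G
    obtain ⟨g, hgN, hgD⟩ := hNinf.exists_notMem_finite hD
    have hKfin : (Subgroup.closure ({a, g⁻¹ * b * g} : Set G) : Set G).Finite := by
      by_contra h
      exact hgD h
    set K : Subgroup G := Subgroup.closure ({a, g⁻¹ * b * g} : Set G) with hK
    have hKf : Finite K := hKfin
    have haK : a ∈ K := Subgroup.subset_closure (by simp)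
    have hbK : g⁻¹ * b * g ∈ K := Subgroup.subset_closure (by simp)
    have hxK : x ∈ K := (Subgroup.zpowers_le.2 haK) hx
    set f : K →* G ⧸ N := (QuotientGroup.mk' N).comp K.subtype with hf
    have hfs : Function.Surjective f := by
      rw [← MonoidHom.range_eq_top, eq_top_iff]
      have h1 : (⊤ : Subgroup (G ⧸ N)) =
          (Subgroup.closure ({a, b} : Set G)).map (QuotientGroup.mk' N) := by
        rw [hgen, ← MonoidHom.range_eq_map]
        exact (MonoidHom.range_eq_top.2 (QuotientGroup.mk'_surjective N)).symm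
      rw [h1, MonoidHom.map_closure, Subgroup.closure_le]
      rintro _ ⟨y, hy, rfl⟩
      rcases hy with rfl | hy
      · exact ⟨⟨y, haK⟩, rfl⟩
      · rw [Set.mem_singleton_iff] at hy
        subst hy
        refine ⟨⟨_, hbK⟩, ?_⟩
        show (QuotientGroup.mk' N) (g⁻¹ * y * g) = (QuotientGroup.mk' N) y
        have h2 : (QuotientGroup.mk' N) g = 1 := by
          rw [← MonoidHom.mem_ker, QuotientGroup.ker_mk']
          exact hgN
        rw [map_mul, map_mul, map_inv, h2]
        simp
    have hfin : Finite (G ⧸ N) := inferInstance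
    have h3 := (hCQ K (G ⧸ N) f ⟨x, hxK⟩ hfs).1
    refine le_trans h3 ?_
    refine Nat.card_le_card_of_injective
      (fun y : Subgroup.centralizer ({(⟨x, hxK⟩ : K)} : Set K) =>
        (⟨((y : K) : G), ?_⟩ : Subgroup.centralizer ({x} : Set G))) ?_
    · rw [Subgroup.mem_centralizer_singleton_iff]
      have h4 := Subgroup.mem_centralizer_singleton_iff.1 y.2
      exact congrArg (fun z : K => (z : G)) h4
    · intro y z hyz
      have h4 : ((y : K) : G) = ((z : K) : G) := 
        congrArg (fun w : Subgroup.centralizer ({x} : Set G) => (w : G)) hyz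
      exact Subtype.ext (Subtype.ext h4)
  -- step 2
  set S : Set ℕ := {k : ℕ | ∃ (N : Subgroup G) (_ : N.Normal), N.FiniteIndex ∧ x ^ p ∈ N ∧
    Nat.card (Subgroup.centralizer ({(QuotientGroup.mk' N) x} : Set (G ⧸ N))) = k} with hS
  have hSne : S.Nonempty := ⟨_, ⊤, inferInstance, inferInstance, Subgroup.mem_top _, rfl⟩
  have hSb : BddAbove S := by
    refine ⟨Nat.card (Subgroup.centralizer ({x} : Set G)), ?_⟩
    rintro k ⟨N, hN, hNfi, -, rfl⟩
    exact step1 N hNfi
  obtain ⟨N₀, hN₀, hN₀fi, hN₀x, hmax⟩ := Nat.sSup_mem hSne hSb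
  refine ⟨N₀, hN₀, hN₀fi, hN₀x, ?_⟩
  intro N hN hNfi hle hNx
  set f : G ⧸ N →* G ⧸ N₀ := QuotientGroup.map N N₀ (MonoidHom.id G) hle with hf
  have hfs : Function.Surjective f := by
    intro y
    obtain ⟨g, rfl⟩ := QuotientGroup.mk'_surjective N₀ y
    exact ⟨QuotientGroup.mk' N g, rfl⟩
  have hfin : Finite (G ⧸ N) := inferInstance
  have hfin0 : Finite (G ⧸ N₀) := inferInstance
  have h3 := (hCQ (G ⧸ N) (G ⧸ N₀) f ((QuotientGroup.mk' N) x) hfs).2 (by
    have h4 : f ((QuotientGroup.mk' N) x) = (QuotientGroup.mk' N₀) x := rfl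
    rw [h4, hmax]
    exact le_csSup hSb ⟨N, hN, hNfi, hNx, rfl⟩)
  have hRn : (N₀.map (QuotientGroup.mk' N)).Normal :=
    hN₀.map _ (QuotientGroup.mk'_surjective N)
  refine hKG p (G ⧸ N) (N₀.map (QuotientGroup.mk' N)) ((QuotientGroup.mk' N) x) hp hRn ?_
  rintro _ ⟨r, hr, rfl⟩
  have h5 : f ((QuotientGroup.mk' N) x * (QuotientGroup.mk' N) r) =
      f ((QuotientGroup.mk' N) x) := by
    rw [map_mul]
    have h6 : f ((QuotientGroup.mk' N) r) = (QuotientGroup.mk' N₀) r := rfl
    have h7 : (QuotientGroup.mk' N₀) r = 1 := by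
      rw [← MonoidHom.mem_ker, QuotientGroup.ker_mk']
      exact hr
    rw [h6, h7, mul_one]
  obtain ⟨g, hg⟩ := h3 _ h5
  have h8 : (QuotientGroup.mk' N) (x ^ p) = 1 := by
    rw [← MonoidHom.mem_ker, QuotientGroup.ker_mk']
    exact hNx
  rw [hg, conj_pow, ← map_pow, h8]
  simp

end Pool.Agent.helper9.TH
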