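import Pool.Agent.helper9.TH.Spec

namespace Pool.Agent.helper9.TH

universe u

theorem KGself (hKB : KB_stmt.{u}) (hKM2 : KM2_stmt.{u}) (hMNE : MNE_stmt.{u}) : KG_stmt.{u} := by
  intro p T _ _ R a hp hR hspl
  have key : ∀ n : ℕ, ∀ (T : Type u) [Group T] [Finite T] (R : Subgroup T) (a : T), R.Normal →
      Spl p a R → Nat.card R = n → Group.IsNilpotent R := by
    intro n
    induction n using Nat.strong_induction_on with
    | _ n ih =>
      intro T _ _ R a hR hspl hn
      have hIH : KIH.{u} p (Nat.card R) := by
        intro T' _ _ R' a' hR' hspl' hlt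
        exact ih _ (hn ▸ hlt) T' R' a' hR' hspl' rfl
      by_cases hmin : ∀ M : Subgroup T, M.Normal → M ≤ R → M = ⊥ ∨ M = R
      · exact hKB p T R a hp hR hspl hIH hmin
      push Not at hmin
      obtain ⟨M, hM, hMR, hM0, hM1⟩ := hmin
      have hlt : Nat.card M < Nat.card R := by
        by_contra h
        exact hM1 (Subgroup.eq_of_le_of_card_ge hMR (not_lt.1 h))
      have hMn : Group.IsNilpotent M :=
        hIH T M a hM (fun r hr => hspl r (hMR hr)) hlt
      obtain ⟨s, hs, N, hN, hNM, hN0, hEA⟩ := hMNE T M hM hM0 hMn
      have hNR : N ≤ R := hNM.trans hMR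
      refine hKM2 p s T R N a hp hs hR hNR hEA ?_ hspl
      have hRn : (R.map (QuotientGroup.mk' N)).Normal :=
        hR.map _ (QuotientGroup.mk'_surjective N)
      refine hIH (T ⧸ N) (R.map (QuotientGroup.mk' N)) ((QuotientGroup.mk' N) a) hRn ?_ ?_
      · rintro _ ⟨r, hr, rfl⟩
        rw [← map_mul, ← map_pow, hspl r hr, map_one]
      · have h1 := Subgroup.card_mul_index (R.map (QuotientGroup.mk' N))
        have h2 : (R.map (QuotientGroup.mk' N)).index = R.index :=
          Subgroup.index_map_eq _ (QuotientGroup.mk'_surjective _)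
            (by rw [QuotientGroup.ker_mk']; exact hNR)
        have h3 := Subgroup.card_mul_index R
        have h4 := Subgroup.card_mul_index N
        have h5 : N.index = Nat.card (T ⧸ N) := rfl
        rw [← h5, h2] at h1
        have hR0 : 0 < R.index := Nat.pos_of_ne_zero Subgroup.index_ne_zero_of_finite
        have hN1 : 1 < Nat.card N := by
          rw [Subgroup.one_lt_card_iff_ne_bot]
          exact hN0
        have hNi : 0 < N.index := Nat.pos_of_ne_zero Subgroup.index_ne_zero_of_finite
        have h6 : Nat.card (R.map (QuotientGroup.mk' N)) * R.index < Nat.card R * R.index := by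
          rw [h1, h3, ← h4]
          calc N.index = 1 * N.index := (one_mul _).symm
            _ < Nat.card N * N.index := Nat.mul_lt_mul_of_pos_right hN1 hNi
        exact Nat.lt_of_mul_lt_mul_right h6
  exact key _ T R a hR hspl rfl

end Pool.Agent.helper9.TH
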