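import Pool.Agent.helper9.TH.Final

/-!
# Ready to use forms: Frobenius, Thompson, Kegel
-/

namespace Pool.Agent.helper9.TH

universe u

/-- Frobenius: if the normalizer of every nontrivial `p`-subgroup has a normal `p`-complement,
so does `G`. -/
theorem frobenius {p : ℕ} (hp : p.Prime) (G : Type u) [Group G] [Finite G]
    (h : ∀ D : Subgroup G, IsPGroup p D → D ≠ ⊥ → PN p (Subgroup.normalizer (D : Set G))) :
    PN p G :=
  Pool.Agent.helper37.TH.FR (Pool.Agent.helper99.TH.FC (Pool.Agent.helper51.TH.FU PBbself) PBbself)
    Pool.Agent.helper43.TH.PBa PBbself p G hp h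

/-- Kegel: `R` normal in the finite group `T`, `a ∈ T`, `p` prime, `(a r) ^ p = 1` for all
`r ∈ R`. Then `R` is nilpotent. -/
theorem kegel' {p : ℕ} (hp : p.Prime) (T : Type u) [Group T] [Finite T] (R : Subgroup T)
    [hR : R.Normal] (a : T) (h : ∀ r ∈ R, (a * r) ^ p = 1) : Group.IsNilpotent R :=
  kegel p T R a hp hR h

theorem mulAut_pow_apply {R : Type u} [Group R] (α : MulAut R) (n : ℕ) (x : R) :
    (α ^ n) x = (α : R → R)^[n] x := by
  induction n with
  | zero => rfl
  | succ n ih => rw [pow_succ', MulAut.mul_apply, ih, Function.iterate_succ_apply']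

/-- The sequence of partial products of the orbit. -/
theorem inl_mul_inr_pow {R : Type u} [Group R] (α : MulAut R) (s : R) (n : ℕ) :
    ((SemidirectProduct.inl s * SemidirectProduct.inr ⟨α, Subgroup.mem_zpowers α⟩ :
      R ⋊[(Subgroup.zpowers α).subtype] (Subgroup.zpowers α))) ^ n =
      SemidirectProduct.inl ((List.range n).map (fun k => (α : R → R)^[k] s)).prod *
        SemidirectProduct.inr (⟨α, Subgroup.mem_zpowers α⟩ ^ n) := by
  induction n with
  | zero => simp
  | succ n ih =>
    rw [pow_succ, ih, List.range_succ, List.map_append, List.prod_append]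
    simp only [List.map_cons, List.map_nil, List.prod_cons, List.prod_nil, mul_one]
    set A : Subgroup.zpowers α := ⟨α, Subgroup.mem_zpowers α⟩ with hA
    have h1 : (SemidirectProduct.inr (A ^ n) * SemidirectProduct.inl s :
        R ⋊[(Subgroup.zpowers α).subtype] (Subgroup.zpowers α)) =
        SemidirectProduct.inl ((α : R → R)^[n] s) * SemidirectProduct.inr (A ^ n) := by
      have h2 := SemidirectProduct.inl_aut (φ := (Subgroup.zpowers α).subtype) (A ^ n) s
      have h3 : ((Subgroup.zpowers α).subtype (A ^ n)) s = (α : R → R)^[n] s := by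
        rw [map_pow]
        show (α ^ n) s = _
        exact mulAut_pow_apply α n s
      rw [h3] at h2
      rw [h2, map_inv]
      group
    rw [map_mul, pow_succ, map_mul]
    calc _ = SemidirectProduct.inl ((List.range n).map (fun k => (α : R → R)^[k] s)).prod *
          (SemidirectProduct.inr (A ^ n) * SemidirectProduct.inl s) *
            SemidirectProduct.inr A := by simp only [mul_assoc]
      _ = _ := by rw [h1]; simp only [mul_assoc]

/-- Thompson: a finite group with a fixed point free automorphism of prime order is
nilpotent. -/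
theorem thompson_fixedPointFree {p : ℕ} (hp : p.Prime) (R : Type u) [Group R] [Finite R]
    (α : MulAut R) (hα : α ^ p = 1) (hfix : ∀ r : R, α r = r → r = 1) : Group.IsNilpotent R := by
  have hprod : ∀ s : R, ((List.range p).map (fun k => (α : R → R)^[k] s)).prod = 1 := by
    intro s
    have h1 : MonoidHom.FixedPointFree (α : R → R) := hfix
    apply MonoidHom.FixedPointFree.prod_pow_eq_one h1
    funext x
    have h2 : (α ^ p) x = x := by rw [hα]; rfl
    rw [← mulAut_pow_apply]
    exact h2
  have hfinA : Finite (MulAut R) := Finite.of_injective (fun f : MulAut R => (f : R → R))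
    (fun f g h => MulEquiv.ext (fun x => congrFun h x))
  have hfin : Finite (R ⋊[(Subgroup.zpowers α).subtype] (Subgroup.zpowers α)) :=
    Finite.of_equiv _ SemidirectProduct.equivProd.symm
  set T := R ⋊[(Subgroup.zpowers α).subtype] (Subgroup.zpowers α) with hT
  set Q : Subgroup T := (SemidirectProduct.inl : R →* T).range with hQ
  have hQn : Q.Normal := by
    rw [hQ, SemidirectProduct.range_inl_eq_ker_rightHom]
    infer_instance
  have h := kegel' hp T Q (SemidirectProduct.inr ⟨α, Subgroup.mem_zpowers α⟩) (by
    rintro _ ⟨r, rfl⟩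
    have h2 := SemidirectProduct.inl_aut (φ := (Subgroup.zpowers α).subtype)
      ⟨α, Subgroup.mem_zpowers α⟩ r
    have h3 : (SemidirectProduct.inr ⟨α, Subgroup.mem_zpowers α⟩ * SemidirectProduct.inl r : T) =
        SemidirectProduct.inl (α r) * SemidirectProduct.inr ⟨α, Subgroup.mem_zpowers α⟩ := by
      have h4 : ((Subgroup.zpowers α).subtype ⟨α, Subgroup.mem_zpowers α⟩) r = α r := rfl
      rw [h4] at h2
      rw [h2, map_inv]
      group
    rw [h3, inl_mul_inr_pow, hprod]
    have h5 : (⟨α, Subgroup.mem_zpowers α⟩ : Subgroup.zpowers α) ^ p = 1 := Subtype.ext hα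
    rw [h5]
    simp)
  exact Group.nilpotent_of_mulEquiv
    (MonoidHom.ofInjective (f := (SemidirectProduct.inl : R →* T))
      SemidirectProduct.inl_injective).symm

/-- A normal subgroup `K` of a finite group on which an element `h` of prime order acts
(by conjugation) without nontrivial fixed points is nilpotent (Frobenius kernels). -/
theorem kernel_nilpotent {p : ℕ} (hp : p.Prime) (G : Type u) [Group G] [Finite G]
    (K : Subgroup G) [K.Normal] (h : G) (hh : h ^ p = 1)
    (hfix : ∀ k ∈ K, h * k = k * h → k = 1) : Group.IsNilpotent K := by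
  refine thompson_fixedPointFree hp K (MulAut.conjNormal h) ?_ ?_
  · rw [← map_pow, hh, map_one]
  · intro k hk
    have h1 : h * (k : G) * h⁻¹ = k := by
      have h2 := congrArg (fun z : K => (z : G)) hk
      simpa using h2
    apply Subtype.ext
    apply hfix k k.2
    calc h * (k : G) = (h * k * h⁻¹) * h := by group
      _ = k * h := by rw [h1]

end Pool.Agent.helper9.TH
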