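import Pool.Agent.helper9.TH.GLX
import Pool.Agent.helper9.TG.D
import Pool.Agent.helper44.ProP

namespace Pool.Agent.helper9.TH

universe u

/-- The main theorem for a power `x` of `a` with finite centralizer. -/
theorem main_x (hCQ : CQ_stmt.{u}) (hKG : KG_stmt.{u}) (h2 : GL2_stmt.{u})
    {G : Type u} [Group G] [Infinite G]
    (p : ℕ) (hp : p.Prime) (a b x : G) (hx : x ∈ Subgroup.zpowers a)
    (hC : ((Subgroup.centralizer ({x} : Set G) : Subgroup G) : Set G).Finite)
    (hgen : Subgroup.closure ({a, b} : Set G) = ⊤)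
    (hq : ∀ m : ℕ, ∃ N : Subgroup G, N.Normal ∧ N.FiniteIndex ∧ m ≤ N.index ∧ x ^ p ∈ N) :
    {g : G | (Subgroup.closure ({a, g⁻¹ * b * g} : Set G) : Set G).Infinite}.Infinite := by
  intro hfin
  obtain ⟨N₀, hN₀, hfi, hN₀x, hnil⟩ := GLX hCQ hKG p a b x hp hgen hx hC hfin
  have hfg : Group.FG G := ⟨⟨(Set.toFinite ({a, b} : Set G)).toFinset, by simpa using hgen⟩⟩
  have hfg0 : Group.FG N₀ := inferInstance
  obtain ⟨q, hqp, hH⟩ := h2 N₀ (by
    intro m
    obtain ⟨N, hN, hNfi, hm, hNx⟩ := hq (m * N₀.index)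
    have hM : (N ⊓ N₀).Normal := inferInstance
    have hMfi : (N ⊓ N₀).FiniteIndex := inferInstance
    have hn := hnil (N ⊓ N₀) hMfi inf_le_right ⟨hNx, hN₀x⟩
    set f := (QuotientGroup.mk' (N ⊓ N₀)).subgroupMap N₀ with hf
    have hfs : Function.Surjective f := MonoidHom.subgroupMap_surjective _ _
    have hfinQ : Finite (G ⧸ (N ⊓ N₀)) := inferInstance
    have hfinM : Finite (N₀.map (QuotientGroup.mk' (N ⊓ N₀))) := inferInstance
    refine ⟨f.ker, inferInstance, ?_, ?_, ?_⟩
    · have e := QuotientGroup.quotientKerEquivOfSurjective f hfs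
      have : Finite (N₀ ⧸ f.ker) := Finite.of_equiv _ e.symm.toEquiv
      exact Subgroup.finiteIndex_of_finite_quotient
    · have hcard : f.ker.index = Nat.card (N₀.map (QuotientGroup.mk' (N ⊓ N₀))) := by
        rw [Subgroup.index_ker, MonoidHom.range_eq_top.2 hfs]
        simp
      have h3 : (N₀.map (QuotientGroup.mk' (N ⊓ N₀))).index = N₀.index :=
        Subgroup.index_map_eq _ (QuotientGroup.mk'_surjective _)
          (by rw [QuotientGroup.ker_mk']; exact inf_le_right)
      have h4 := Subgroup.card_mul_index (N₀.map (QuotientGroup.mk' (N ⊓ N₀)))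
      have h5 : (N ⊓ N₀).index = Nat.card (G ⧸ (N ⊓ N₀)) := rfl
      rw [h3, ← h5] at h4
      have h6 : N.index ≤ (N ⊓ N₀).index := Nat.le_of_dvd
        (Nat.pos_of_ne_zero hMfi.index_ne_zero) (Subgroup.index_dvd_of_le inf_le_left)
      have h7 : m * N₀.index ≤ Nat.card (N₀.map (QuotientGroup.mk' (N ⊓ N₀))) * N₀.index := by
        rw [h4]; exact hm.trans h6
      rw [hcard]
      exact Nat.le_of_mul_le_mul_right h7 (Nat.pos_of_ne_zero hfi.index_ne_zero)
    · have e := QuotientGroup.quotientKerEquivOfSurjective f hfs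
      have := hn
      exact Group.nilpotent_of_mulEquiv e.symm)
  obtain ⟨N, hN, hNfi, hinf⟩ :=
    Pool.Agent.helper44.ProP.main_proP a b hgen q hqp N₀ hH
  have hNfin : (N : Set G).Finite := hfin.subset hinf
  have hNfin' : Finite N := hNfin
  have : Finite G := Finite.of_subgroup_quotient N
  exact not_finite G

/-- If `⟨x, b ^ h⟩` is infinite for some `h`, and the centralizer of `x` is infinite, then
`⟨a, b ^ g⟩` is infinite for infinitely many `g`. -/
theorem easy_x {G : Type u} [Group G] (a b x h : G) (hx : x ∈ Subgroup.zpowers a)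
    (hC : ((Subgroup.centralizer ({x} : Set G) : Subgroup G) : Set G).Infinite)
    (hh : (Subgroup.closure ({x, h⁻¹ * b * h} : Set G) : Set G).Infinite) :
    {g : G | (Subgroup.closure ({a, g⁻¹ * b * g} : Set G) : Set G).Infinite}.Infinite := by
  refine (hC.image (f := fun c => h * c) (fun c _ d _ hcd => mul_left_cancel hcd)).mono ?_
  rintro _ ⟨c, hc, rfl⟩
  have hc' : c * x = x * c := Subgroup.mem_centralizer_singleton_iff.1 hc
  show (Subgroup.closure ({a, (h * c)⁻¹ * b * (h * c)} : Set G) : Set G).Infinite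
  have h1 : (Subgroup.closure ({x, (h * c)⁻¹ * b * (h * c)} : Set G)) =
      (Subgroup.closure ({x, h⁻¹ * b * h} : Set G)).map (MulAut.conj c⁻¹).toMonoidHom := by
    rw [MonoidHom.map_closure]
    congr 1
    rw [Set.image_pair]
    have h3 : (MulAut.conj c⁻¹).toMonoidHom x = x := by
      show c⁻¹ * x * c⁻¹⁻¹ = x
      rw [inv_inv, mul_assoc, ← hc']
      group
    have h4 : (MulAut.conj c⁻¹).toMonoidHom (h⁻¹ * b * h) = (h * c)⁻¹ * b * (h * c) := by
      show c⁻¹ * (h⁻¹ * b * h) * c⁻¹⁻¹ = _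
      group
    rw [h3, h4]
  have h2 : (Subgroup.closure ({x, (h * c)⁻¹ * b * (h * c)} : Set G) : Set G).Infinite := by
    rw [h1]
    exact hh.image (fun u _ v _ huv => (MulAut.conj c⁻¹).injective huv)
  refine h2.mono ?_
  have h5 : Subgroup.closure ({x, (h * c)⁻¹ * b * (h * c)} : Set G) ≤
      Subgroup.closure ({a, (h * c)⁻¹ * b * (h * c)} : Set G) := by
    rw [Subgroup.closure_le]
    have ha : a ∈ Subgroup.closure ({a, (h * c)⁻¹ * b * (h * c)} : Set G) :=
      Subgroup.subset_closure (by simp)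
    rintro y (rfl | hy)
    · exact (Subgroup.zpowers_le.2 ha) hx
    · exact Subgroup.subset_closure (Or.inr hy)
  exact h5

/-- Both cases together, for a power `x` of `a`. -/
theorem main_a (hCQ : CQ_stmt.{u}) (hKG : KG_stmt.{u}) (h2 : GL2_stmt.{u})
    {G : Type u} [Group G] [Infinite G]
    (p : ℕ) (hp : p.Prime) (a b x : G) (hx : x ∈ Subgroup.zpowers a)
    (hC : ((Subgroup.centralizer ({x} : Set G) : Subgroup G) : Set G).Finite ∨
      ∃ h : G, (Subgroup.closure ({x, h⁻¹ * b * h} : Set G) : Set G).Infinite)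
    (hgen : Subgroup.closure ({a, b} : Set G) = ⊤)
    (hq : ∀ m : ℕ, ∃ N : Subgroup G, N.Normal ∧ N.FiniteIndex ∧ m ≤ N.index ∧ x ^ p ∈ N) :
    {g : G | (Subgroup.closure ({a, g⁻¹ * b * g} : Set G) : Set G).Infinite}.Infinite := by
  by_cases hCf : ((Subgroup.centralizer ({x} : Set G) : Subgroup G) : Set G).Finite
  · exact main_x hCQ hKG h2 p hp a b x hx hCf hgen hq
  · obtain ⟨h, hh⟩ := hC.resolve_left hCf
    exact easy_x a b x h hx hCf hh

/-- The main theorem. -/
theorem main (hCQ : CQ_stmt.{u}) (hKG : KG_stmt.{u}) (h2 : GL2_stmt.{u})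
    {G : Type u} [Group G] [Infinite G]
    (a b : G) (hgen : Subgroup.closure ({a, b} : Set G) = ⊤)
    (p : ℕ) (hp : p.Prime) (x : G)
    (hq : ∀ m : ℕ, ∃ N : Subgroup G, N.Normal ∧ N.FiniteIndex ∧ m ≤ N.index ∧ x ^ p ∈ N)
    (hx : (x ∈ Subgroup.zpowers a ∧
        (((Subgroup.centralizer ({x} : Set G) : Subgroup G) : Set G).Finite ∨
          ∃ h : G, (Subgroup.closure ({x, h⁻¹ * b * h} : Set G) : Set G).Infinite)) ∨
      (x ∈ Subgroup.zpowers b ∧
        (((Subgroup.centralizer ({x} : Set G) : Subgroup G) : Set G).Finite ∨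
          ∃ h : G, (Subgroup.closure ({a, h⁻¹ * x * h} : Set G) : Set G).Infinite))) :
    {g : G | (Subgroup.closure ({a, g⁻¹ * b * g} : Set G) : Set G).Infinite}.Infinite := by
  rcases hx with ⟨hx, hC⟩ | ⟨hx, hC⟩
  · exact main_a hCQ hKG h2 p hp a b x hx hC hgen hq
  · rw [Pool.Agent.helper9.TG.swap_set]
    have hC' : ((Subgroup.centralizer ({x} : Set G) : Subgroup G) : Set G).Finite ∨
        ∃ h : G, (Subgroup.closure ({x, h⁻¹ * a * h} : Set G) : Set G).Infinite := by
      refine hC.imp_right ?_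
      rintro ⟨h, hh⟩
      have h3 : h ∈ {g : G | (Subgroup.closure ({a, g⁻¹ * x * g} : Set G) : Set G).Infinite} := hh
      rw [Pool.Agent.helper9.TG.swap_set] at h3
      exact ⟨h⁻¹, h3⟩
    have h := main_a hCQ hKG h2 p hp b a x hx hC' (by rw [Set.pair_comm]; exact hgen) hq
    exact h.preimage (by
      intro x _
      exact ⟨x⁻¹, inv_inv x⟩)

end Pool.Agent.helper9.TH
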