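import Mathlib

/-!
# Spec: Thompson's normal p-complement theorem, Kegel's theorem on prime order
# automorphisms, and the finite quotient theorem for MP_fd6eef_al

Every row `X` below is a `def X_stmt : Prop`, with its proof written in words.
To do row `X`, write `Pool/Agent/<your seat>/TH/X.lean` with
`import Pool.Agent.helper9.TH.Spec`, `namespace Pool.Agent.<your seat>.TH`,
`open Pool.Agent.helper9.TH`, and
`theorem X (hyps, each of the form hY : Y_stmt.{u}) : X_stmt.{u} := by ...`
where `hyps` are exactly the rows listed under Uses of that row (drop those you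
do not need).  All groups are finite unless said otherwise; `p` is a prime.
Here `Subgroup.normalizer (S : Set G)` is the normalizer of a set, as in Mathlib.
-/

namespace Pool.Agent.helper9.TH

universe u

/-- `PN p G`: the finite group `G` has a normal `p`-complement, i.e. a normal
subgroup of order prime to `p` and of index a power of `p`. -/
def PN (p : ℕ) (G : Type u) [Group G] : Prop :=
  ∃ K : Subgroup G, K.Normal ∧ (Nat.card K).Coprime p ∧ ∃ k : ℕ, K.index = p ^ k

/-- `A` is elementary abelian. -/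
def EA (p : ℕ) {G : Type u} [Group G] (A : Subgroup G) : Prop :=
  (∀ x ∈ A, ∀ y ∈ A, x * y = y * x) ∧ ∀ x ∈ A, x ^ p = 1

/-- `A` is an elementary abelian subgroup of `P` of the largest order. -/
def MaxEA (p : ℕ) {G : Type u} [Group G] (P A : Subgroup G) : Prop :=
  A ≤ P ∧ EA p A ∧ ∀ B : Subgroup G, B ≤ P → EA p B → Nat.card B ≤ Nat.card A

/-- The Thompson subgroup `J(P)` (elementary abelian version). -/
def JJ (p : ℕ) {G : Type u} [Group G] (P : Subgroup G) : Subgroup G :=
  sSup {A | MaxEA p P A}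

/-- `Ω₁(Z(P))`, the elements `x` of `P` with `x ^ p = 1` that commute with all of `P`. -/
def OZ (p : ℕ) {G : Type u} [Group G] (P : Subgroup G) : Subgroup G where
  carrier := {x | x ∈ P ∧ x ^ p = 1 ∧ ∀ y ∈ P, x * y = y * x}
  one_mem' := ⟨P.one_mem, one_pow p, fun y _ => by simp⟩
  mul_mem' := by
    rintro a b ⟨ha, hap, hac⟩ ⟨hb, hbp, hbc⟩
    refine ⟨P.mul_mem ha hb, ?_, fun y hy => ?_⟩
    · rw [(show Commute a b from hac b hb).mul_pow, hap, hbp, one_mul]
    · rw [mul_assoc, hbc y hy, ← mul_assoc, hac y hy, mul_assoc]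
  inv_mem' := by
    rintro a ⟨ha, hap, hac⟩
    exact ⟨P.inv_mem ha, by rw [inv_pow, hap, inv_one],
      fun y hy => ((show Commute a y from hac y hy).inv_left).eq⟩

/-- `P` is a Sylow `p`-subgroup. -/
def Syl (p : ℕ) {G : Type u} [Group G] (P : Subgroup G) : Prop :=
  IsPGroup p P ∧ ¬ p ∣ P.index

/-- The hypothesis of Thompson's theorem for `(G, P)`. -/
def Hyp (p : ℕ) (G : Type u) [Group G] (P : Subgroup G) : Prop :=
  Syl p P ∧ PN p (Subgroup.normalizer (JJ p P : Set G)) ∧
    PN p (Subgroup.normalizer (OZ p P : Set G))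

/-- Thompson's theorem for all groups of order less than `n`. -/
def IHyp (p n : ℕ) : Prop :=
  ∀ (G : Type u) [Group G] [Finite G] (P : Subgroup G), Nat.card G < n → Hyp p G P → PN p G

/-- `U` contains every normal `p`-subgroup of `G`. -/
def OpMax (p : ℕ) {G : Type u} [Group G] (U : Subgroup G) : Prop :=
  ∀ D : Subgroup G, D.Normal → IsPGroup p D → D ≤ U

/-- `G` has no nontrivial normal subgroup of order prime to `p`. -/
def NoPP (p : ℕ) (G : Type u) [Group G] : Prop :=
  ∀ M : Subgroup G, M.Normal → (Nat.card M).Coprime p → M = ⊥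

/-! ## Rows PB: the property `PN` -/

/-- Row PBa.  Three facts.
(1) subgroups: pull the complement `K` back along the injective `f`
(`K.comap f` is normal; `Nat.card (K.comap f)` divides `Nat.card K`; its index is
`K.relIndex f.range`, which divides `K.index`, `Subgroup.index_comap`,
`Subgroup.relIndex_dvd_index_of_normal`; use `Nat.dvd_prime_pow`).
(2) images: `K.map f` (`Subgroup.card_map_dvd` or `card_dvd_of_surjective`, `Subgroup.index_map_dvd`).
(3) lifting over a normal `p'`-subgroup `N`: take `K.comap (mk' N)`, of order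
`|N| |K|` and index `K.index`. -/
def PBa_stmt : Prop :=
  (∀ (p : ℕ) (H G : Type u) [Group H] [Group G] [Finite H] [Finite G], p.Prime →
    ∀ f : H →* G, Function.Injective f → PN p G → PN p H) ∧
  (∀ (p : ℕ) (G Q : Type u) [Group G] [Group Q] [Finite G] [Finite Q], p.Prime →
    ∀ f : G →* Q, Function.Surjective f → PN p G → PN p Q) ∧
  (∀ (p : ℕ) (G : Type u) [Group G] [Finite G] (N : Subgroup G) [N.Normal], p.Prime →
    (Nat.card N).Coprime p → PN p (G ⧸ N) → PN p G)

/-- Row PBb.  Facts about the complement `K`.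
(1) `x ∈ K ↔ orderOf x` is prime to `p` (the order of the image of `x` in `G ⧸ K`
divides both `orderOf x` and `K.index = p ^ k`; conversely `orderOf x ∣ Nat.card K`).
(2) `K` commutes with any normal `p`-subgroup `D`: the commutator of `x ∈ K` and
`y ∈ D` lies in `K ⊓ D`, whose order is prime to `p` and a power of `p`.
(3) if `H` is normal of `p`-power index and `PN p H`, then `PN p G`: the complement
of `H`, mapped to `G`, is normal in `G` by (1) (it is the set of all elements of `H`
of order prime to `p`), its order is prime to `p`, its index is the product of two powers of `p`. -/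
def PBb_stmt : Prop :=
  (∀ (p : ℕ) (G : Type u) [Group G] [Finite G] (K : Subgroup G), p.Prime → K.Normal →
    (Nat.card K).Coprime p → (∃ k : ℕ, K.index = p ^ k) →
    ∀ x : G, x ∈ K ↔ (orderOf x).Coprime p) ∧
  (∀ (p : ℕ) (G : Type u) [Group G] [Finite G] (K D : Subgroup G), p.Prime → K.Normal →
    (Nat.card K).Coprime p → D.Normal → IsPGroup p D →
    ∀ x ∈ K, ∀ y ∈ D, x * y = y * x) ∧
  (∀ (p : ℕ) (G : Type u) [Group G] [Finite G] (H : Subgroup G), p.Prime → H.Normal →
    (∃ k : ℕ, H.index = p ^ k) → PN p H → PN p G)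

/-! ## Rows FU, FC, FR: Frobenius's theorem -/

/-- `HN p G`: all normalizers of nontrivial `p`-subgroups have a normal `p`-complement. -/
def HN (p : ℕ) (G : Type u) [Group G] : Prop :=
  ∀ D : Subgroup G, IsPGroup p D → D ≠ ⊥ → PN p (Subgroup.normalizer (D : Set G))

/-- Row FU.  Uses PBb (2).
Downward induction on `Nat.card (P ⊓ Q)` (strong induction on `Nat.card G - Nat.card (P ⊓ Q)`).
Let `D = P ⊓ Q`.  If `D = ⊥` use that Sylow subgroups are conjugate (the commuting
condition is void).  If `P = Q` take `c = 1`.  Otherwise `D < P`, `D < Q`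
(`Nat.card P = Nat.card Q`).  Let `N = normalizer D`, with complement `K`; by PBb (2)
applied inside `N` (where `D` is a normal `p`-subgroup) all of `K` commutes with `D`.
`P ⊓ N > D` and `Q ⊓ N > D` (normalizer condition in the `p`-groups `P`, `Q`:
`Subgroup.NormalizerCondition`, `IsPGroup.isNilpotent`, `Group.normalizerCondition_of_isNilpotent`).
Take Sylow subgroups `P₁ ≥ P ⊓ N`, `Q₁ ≥ Q ⊓ N` of `N`; they are conjugate in `N`, and
even by an element `k ∈ K` : `k P₁ k⁻¹ = Q₁` (because `N = K P₁`: the index of `K` is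
the order of `P₁`).  Take a Sylow subgroup `P₂ ≥ P₁` of `G`.  Induction for
`(P, P₂)` (as `P ⊓ P₂ ≥ P ⊓ N > D`) gives `c₁`, commuting with `P ⊓ P₂ ≥ D`, with
`c₁ P c₁⁻¹ = P₂`; induction for `(k P₂ k⁻¹, Q)` (whose intersection contains `Q ⊓ N > D`)
gives `c₂` commuting with `D` and `c₂ k P₂ k⁻¹ c₂⁻¹ = Q`.  Then `c = c₂ k c₁`. -/
def FU_stmt : Prop :=
  ∀ (p : ℕ) (G : Type u) [Group G] [Finite G], p.Prime → HN p G → ∀ P Q : Sylow p G,
    ∃ c : G, (∀ x : G, x ∈ P → x ∈ Q → c * x = x * c) ∧ ∀ x : G, x ∈ P ↔ c * x * c⁻¹ ∈ Q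

/-- Row FC.  Uses FU, PBb (2).  Two elements of `P` conjugate in `G` are conjugate in `P`.
Proof: if `x = 1` trivial, so `P ≠ ⊥`.  Let `Q = g⁻¹ P g`, `x ∈ P ⊓ Q`.  FU gives `c` commuting with
`x` and `c P c⁻¹ = Q`, so `g c` normalizes `P` and `(g c) x (g c)⁻¹ = g x g⁻¹`.  By `HN` the
normalizer of `P` is `P K` with `K` commuting with `P` (PBb (2)), so `g c = y k`, and
`y x y⁻¹ = g x g⁻¹`. -/
def FC_stmt : Prop :=
  ∀ (p : ℕ) (G : Type u) [Group G] [Finite G], p.Prime → HN p G → ∀ P : Sylow p G,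
    ∀ x g : G, x ∈ P → g * x * g⁻¹ ∈ P → ∃ y ∈ P, y * x * y⁻¹ = g * x * g⁻¹

/-- Row FR (Frobenius).  Uses FC, PBa (1), PBb (3).
Strong induction on `Nat.card G`.  Let `P` be a Sylow subgroup.  If `P = ⊥` take `K = ⊤`.
Otherwise, by FC the focal subgroup `P.focalSubgroupOf` (Mathlib, `GroupTheory/Focal.lean`)
is contained in the commutator subgroup of `P` (`g = ⁅x,u⁆ = x (u x⁻¹ u⁻¹)`, and
`u x⁻¹ u⁻¹ = y x⁻¹ y⁻¹` with `y ∈ P`), which is proper as `P` is a nontrivial nilpotent group.
`transferFocal` is surjective onto `P ⧸ P.focalSubgroupOf` (`transferFocal_surjective`), a nontrivial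
`p`-group, so its kernel `M` is a proper normal subgroup of `p`-power index.  `HN p M` holds: for `D ≤ M`
the normalizer of `D` in `M` embeds into the normalizer of the image of `D` in `G` (PBa (1)).
By induction `PN p M`, and PBb (3). -/
def FR_stmt : Prop :=
  ∀ (p : ℕ) (G : Type u) [Group G] [Finite G], p.Prime → HN p G → PN p G

/-! ## Rows JB: the subgroups `JJ` and `OZ` -/

/-- Row JBa.  (1), (2) obvious; (3), (4) transport along an injective homomorphism `f`:
`A ↦ A.map f` is a bijection from the subgroups of `P` to those of `P.map f` preserving `EA` and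
orders (inverse `B ↦ B.comap f`, as `B ≤ f.range`).
(5), (6): for `g` in the normalizer of `P` apply (3), (4) with `f` conjugation by `g`:
`P.map f = P`, so `(JJ p P).map f = JJ p P` (`Subgroup.mem_normalizer_iff_map_conj_eq`). -/
def JBa_stmt : Prop :=
  (∀ (p : ℕ) (G : Type u) [Group G] (P : Subgroup G), JJ p P ≤ P) ∧
  (∀ (p : ℕ) (G : Type u) [Group G] (P : Subgroup G), OZ p P ≤ P) ∧
  (∀ (p : ℕ) (H G : Type u) [Group H] [Group G] [Finite H] [Finite G]
    (f : H →* G) (P : Subgroup H), Function.Injective f → JJ p (P.map f) = (JJ p P).map f) ∧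
  (∀ (p : ℕ) (H G : Type u) [Group H] [Group G] [Finite H] [Finite G]
    (f : H →* G) (P : Subgroup H), Function.Injective f → OZ p (P.map f) = (OZ p P).map f) ∧
  (∀ (p : ℕ) (G : Type u) [Group G] [Finite G] (P : Subgroup G),
    Subgroup.normalizer (P : Set G) ≤ Subgroup.normalizer (JJ p P : Set G)) ∧
  (∀ (p : ℕ) (G : Type u) [Group G] [Finite G] (P : Subgroup G),
    Subgroup.normalizer (P : Set G) ≤ Subgroup.normalizer (OZ p P : Set G))

/-- Row JBb.  (1) some `A` with `MaxEA p P A` exists (finiteness, `⊥` is `EA`) and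
`Nat.card A > 1` because `P` has a subgroup of order `p` (`exists_prime_orderOf_dvd_card`).
(2) the center of `P` is nontrivial (`IsPGroup.center_nontrivial`), a `p`-group, so it has an element
of order `p`.  (3) `MaxEA p P A` and `MaxEA p U A` are equivalent, because every
`A` with `MaxEA p P A` lies in `JJ p P ≤ U ≤ P` and there is at least one of them. -/
def JBb_stmt : Prop :=
  (∀ (p : ℕ) (G : Type u) [Group G] [Finite G] (P : Subgroup G), p.Prime → IsPGroup p P →
    P ≠ ⊥ → JJ p P ≠ ⊥) ∧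
  (∀ (p : ℕ) (G : Type u) [Group G] [Finite G] (P : Subgroup G), p.Prime → IsPGroup p P →
    P ≠ ⊥ → OZ p P ≠ ⊥) ∧
  (∀ (p : ℕ) (G : Type u) [Group G] [Finite G] (P U : Subgroup G),
    JJ p P ≤ U → U ≤ P → JJ p U = JJ p P)

/-! ## Rows S: the minimal counterexample -/

/-- Row S1.  Uses PBa (1), JBa (3), (4).
(1) `Hyp` passes from `(G, P)` to `(H, P.subgroupOf H)` for `P ≤ H`: the index of `P` in `H` divides
that in `G`; `(P.subgroupOf H).map H.subtype = P`, so `JJ p P = (JJ p (P.subgroupOf H)).map H.subtype` by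
JBa (3), and the normalizer in `H` embeds in the normalizer in `G` (PBa (1)); same for `OZ`.
(2) `Hyp` holds for every Sylow `p`-subgroup `Q` as soon as it holds for `P`: `Q = g P g⁻¹`, JBa (3), (4) with
`f` the conjugation by `g`, and the normalizers are isomorphic. -/
def S1_stmt : Prop :=
  (∀ (p : ℕ) (G : Type u) [Group G] [Finite G] (P H : Subgroup G), p.Prime → Hyp p G P →
    P ≤ H → Hyp p H (P.subgroupOf H)) ∧
  (∀ (p : ℕ) (G : Type u) [Group G] [Finite G] (P Q : Subgroup G), p.Prime → Hyp p G P →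
    Syl p Q → Hyp p G Q)

/-- Row S2.  Uses FR, S1, JBa (1)-(6), JBb (1), (2), PBa (1), (2).
By FR there is a `p`-subgroup `D ≠ ⊥` with `¬ PN p (normalizer D)`.  Among all such `D` choose one with
the `p`-part `(Nat.card (normalizer D)).factorization p` (or `p ^ that`) as large as possible.  Let `N = normalizer D`, and assume
`N ≠ ⊤` (otherwise `D` is normal, done).  Let `P₀` be a Sylow `p`-subgroup of `N` (a subgroup of `G`).
Case A: `Syl p P₀` in `G`.  Then `Hyp p G P₀` (S1 (2)), `Hyp p N _` (S1 (1)), so `PN p N` by `IHyp`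
(`Nat.card N < Nat.card G`), contradiction.
Case B: `P₀` is not Sylow in `G`; then the normalizer of `P₀` contains a `p`-subgroup larger than `P₀`
(take a Sylow `P₁ ≥ P₀` of `G`, `P₀ < P₁`, and the normalizer condition in `P₁`).  For `X = JJ p P₀` and
`X = OZ p P₀` (nontrivial as `P₀ ≠ ⊥`: `D ≤ P₀` since `D` is a normal `p`-subgroup of `N`), `X` is a `p`-group, the normalizer of `X` contains
that of `P₀` (JBa), so its `p`-part is larger than that of `N`; by the choice of `D` it has `PN`.  So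
`Hyp p N (P₀.subgroupOf N)` holds (JBa (3), (4), PBa (1)) and `PN p N` by `IHyp`, contradiction. -/
def S2_stmt : Prop :=
  ∀ (p : ℕ) (G : Type u) [Group G] [Finite G] (P : Subgroup G), p.Prime →
    IHyp.{u} p (Nat.card G) → Hyp p G P → ¬ PN p G →
    ∃ D : Subgroup G, D.Normal ∧ IsPGroup p D ∧ D ≠ ⊥

/-- Row S3.  Uses S1, JBa (1), (2), (5), (6), JBb (1), (2), PBa (2).
`U ≤ P` (a normal `p`-subgroup lies in every Sylow subgroup; or add it as a hypothesis, it is one below).
If `P = U` then `G ⧸ U` has order prime to `p`, take `K = ⊤`.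
Otherwise let `P' = P.map (mk' U) ≠ ⊥`, a Sylow subgroup of `G ⧸ U`, and for `X' = JJ p P'` (or `OZ p P'`), `X' ≠ ⊥`,
`X' ≤ P'`, `P'` normalizes `X'` (JBa (5), (6)).  Let `X = X'.comap (mk' U)`: `U < X ≤ P`, `X` is a
`p`-group, and `normalizer X ≥ P`; `normalizer X ≠ ⊤` by `OpMax`.  By S1 (1) and `IHyp`, `PN p (normalizer X)`.  The normalizer of `X'`
is the image of the normalizer of `X` (`(normalizer X') .comap (mk' U) = normalizer X`), so it has `PN` by PBa (2).
So `Hyp p (G ⧸ U) P'`, and `IHyp` applies as `Nat.card (G ⧸ U) < Nat.card G`. -/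
def S3_stmt : Prop :=
  ∀ (p : ℕ) (G : Type u) [Group G] [Finite G] (P U : Subgroup G) [U.Normal], p.Prime →
    IHyp.{u} p (Nat.card G) → Hyp p G P → IsPGroup p U → U ≤ P → U ≠ ⊥ → OpMax p U → PN p (G ⧸ U)

/-- Row S4.  Uses JBa (1)-(4), PBa (2), (3).
Let `M ≠ ⊥` be normal of order prime to `p`; put `P' = P.map (mk' M)`, a Sylow subgroup of `G ⧸ M`
(index prime to `p`).  The restriction of `mk' M` to `P` is injective (`P ⊓ M = ⊥`).  By JBa (3) applied to `P.subtype : P →* G` and to
the injective homomorphism `(mk' M).comp P.subtype` (both with the subgroup `⊤` of `P`), `JJ p P' = (JJ p P).map (mk' M)`; same for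
`OZ`.  For `X = JJ p P` or `OZ p P` and `X' = X.map (mk' M)`: the normalizer of `X'` is the image
of the normalizer of `X`.  Indeed if `g` normalizes `X ⊔ M`, then `X` and `g X g⁻¹` are Sylow `p`-subgroups of
`X ⊔ M` so they are conjugate by some `m ∈ M` (Mathlib: Frattini `Sylow.normalizer_sup_eq_top`, or Sylow conjugacy).
So `Hyp p (G ⧸ M) P'`, thus `PN p (G ⧸ M)` by `IHyp`, and `PN p G` by PBa (3), a contradiction. -/
def S4_stmt : Prop :=
  ∀ (p : ℕ) (G : Type u) [Group G] [Finite G] (P : Subgroup G), p.Prime →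
    IHyp.{u} p (Nat.card G) → Hyp p G P → ¬ PN p G → NoPP p G

/-- Row S5.  Uses PBb (1), maybe PBa.
Let `C` be the centralizer of `U` (normal), `K'` the complement of `G ⧸ U`, `K = K'.comap (mk' U)`, `L = C ⊓ K`,
normal in `G`.  `L ⊓ U` is central in `L` (elements of `L` commute with `U`), and the index of `L ⊓ U` in `L`
is prime to `p` (`L ⧸ (L ⊓ U)` embeds in `K'`).  So `L ⊓ U` is a central Sylow `p`-subgroup of `L`, and by Burnside's transfer
theorem (Mathlib `MonoidHom.ker_transferSylow_isComplement'`) `PN p L`; its complement is the set of elements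
of `L` of order prime to `p` (PBb (1)), so it is a normal subgroup of `G` of order prime to `p`, hence trivial.
So `L = L ⊓ U` is a `p`-group.  `C ⧸ L` embeds in `G ⧸ K`, a `p`-group; so `C` is a normal `p`-subgroup of `G`,
hence `C ≤ U`. -/
def S5_stmt : Prop :=
  ∀ (p : ℕ) (G : Type u) [Group G] [Finite G] (U : Subgroup G) [U.Normal], p.Prime →
    IsPGroup p U → OpMax p U → NoPP p G → PN p (G ⧸ U) →
    ∀ g : G, (∀ x ∈ U, g * x = x * g) → g ∈ U

/-- Row S6.  Uses S1 (1), PBb (2).
By S1 (1) and `IHyp`, `PN p H`; let `L` be the complement of `H`.  `U ≤ P ≤ H` is a normal `p`-subgroup of `H`, so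
`L` commutes with `U` (PBb (2)), so `L ≤ U` by hypothesis and `L = ⊥` (order prime to `p` and a power of
`p`).  So `H` is a `p`-group containing the Sylow subgroup `P`, so `H = P`. -/
def S6_stmt : Prop :=
  ∀ (p : ℕ) (G : Type u) [Group G] [Finite G] (P U : Subgroup G) [U.Normal], p.Prime →
    IHyp.{u} p (Nat.card G) → Hyp p G P → IsPGroup p U → U ≤ P →
    (∀ g : G, (∀ x ∈ U, g * x = x * g) → g ∈ U) →
    ∀ H : Subgroup G, P ≤ H → H ≠ ⊤ → H = P

/-- Row S7a.  For a group `G` (it will be `G ⧸ U`) with Sylow `p`-subgroup `P` which is a maximal subgroup or the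
whole group, and a normal complement `K`, `K` is abelian.  Proof: if `K = ⊥` fine.  Otherwise let `q` be a prime dividing
`Nat.card K` (`q ≠ p`) and `Q` a Sylow `q`-subgroup of `K` (as a subgroup of `G`).  Frattini (`Sylow.normalizer_sup_eq_top`): `N(Q) ⊔ K = ⊤`, so
`Nat.card (N(Q))` is divisible by `K.index = Nat.card P` (`N(Q)` surjects onto `G ⧸ K`), so `N(Q)` contains a
Sylow `p`-subgroup of `G`, that is a conjugate of `P`; replacing `Q` by a conjugate (still inside `K`, as `K` is normal) we get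
`P ≤ N(Q)`.  Then `Q ⊔ P` is a subgroup containing `P` and different from `P`; so it is `⊤`, and `Q = K` by orders.
So `K` is a nontrivial `q`-group; its commutator subgroup `K'` is proper, normal in `G`; `K' ⊔ P = ⊤` would give
`K' = K` by orders; so `K' ⊔ P = P`, `K' ≤ P ⊓ K = ⊥`. -/
def S7a_stmt : Prop :=
  ∀ (p : ℕ) (G : Type u) [Group G] [Finite G] (P K : Subgroup G), p.Prime → Syl p P →
    (∀ H : Subgroup G, P ≤ H → H ≠ ⊤ → H = P) → K.Normal → (Nat.card K).Coprime p →
    (∃ k : ℕ, K.index = p ^ k) → ∀ x ∈ K, ∀ y ∈ K, x * y = y * x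

/-- Row S7b.  Uses S7a.
Let `K'` be the complement of `G ⧸ U`, `K = K'.comap (mk' U)`.  `P.map (mk' U)` is a Sylow subgroup of `G ⧸ U`
and is maximal or everything, so S7a gives that `K'` is abelian.  `K ⊔ P = ⊤` by orders (or: in `G ⧸ U`).
Faithfulness: `R = {g ∈ P | ∀ k ∈ K, ⁅g, k⁆ ∈ U}` is a subgroup containing `U` (its image in `G ⧸ U`
is `P' ⊓ centralizer K'`), normalized by `P` and by `K`
(its image is centralized by `K'`), so normal in `G = K ⊔ P`, and a `p`-group, so `R ≤ U` by `OpMax`. -/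
def S7b_stmt : Prop :=
  ∀ (p : ℕ) (G : Type u) [Group G] [Finite G] (P U : Subgroup G) [U.Normal], p.Prime → Syl p P →
    U ≤ P → OpMax p U → PN p (G ⧸ U) → (∀ H : Subgroup G, P ≤ H → H ≠ ⊤ → H = P) →
    ∃ K : Subgroup G, K.Normal ∧ U ≤ K ∧ (∀ x ∈ K, ∀ y ∈ K, x * y * x⁻¹ * y⁻¹ ∈ U) ∧
      (U.relIndex K).Coprime p ∧ ∀ g ∈ P, (∀ k ∈ K, g * k * g⁻¹ * k⁻¹ ∈ U) → g ∈ U

/-- Row S8.  Uses PBa (1), PBb (1).
`OZ p P ≤ U` since its elements commute with `P ≥ U`.  Let `W = {x ∈ U | x ^ p = 1 ∧ x commutes with U}` (it is `OZ p U`), a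
normal subgroup of `G`, so `V = normalClosure (OZ p P) ≤ W`: `V ≤ U`, `EA p V`, and `V` commutes with `U`.
Let `C` be the centralizer of `V` (normal in `G`).  `C` centralizes `OZ p P`, so `C ≤ normalizer (OZ p P)` and
`PN p C` (PBa (1)).  The complement of `C` is the set of its elements of order prime to `p` (PBb (1)), hence a normal
subgroup of `G` of order prime to `p`, so trivial (`NoPP`); so `C` is a normal `p`-subgroup, `C ≤ U` by `OpMax`. -/
def S8_stmt : Prop :=
  ∀ (p : ℕ) (G : Type u) [Group G] [Finite G] (P U : Subgroup G) [U.Normal], p.Prime →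
    IsPGroup p P → U ≤ P → OpMax p U → NoPP p G → PN p (Subgroup.normalizer (OZ p P : Set G)) →
    (∀ g : G, (∀ x ∈ U, g * x = x * g) → g ∈ U) →
    ∃ V : Subgroup G, V.Normal ∧ V ≤ U ∧ EA p V ∧ (∀ v ∈ V, ∀ x ∈ U, v * x = x * v) ∧
      ∀ g : G, (∀ v ∈ V, g * v = v * g) → g ∈ U

/-- Row S9.  Uses JBa (1), (5), JBb (3).
`JJ p P ≤ U` is impossible: it would give `JJ p U = JJ p P` (JBb (3)), which is normal in `G` by JBa (5) (as `U` is normal), so
`normalizer (JJ p P) = ⊤` has `PN`, so `PN p G` (PBa (2) for the projection from `⊤`).  So some `A` with `MaxEA p P A` is not contained in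
`U`.  `(A ⊓ U) ⊔ V` is `EA` and contained in `P`, of order `|A ⊓ U| |V| / |A ⊓ V|`
(`Subgroup.card_mul_eq`-type product formula; `V` normal: `(H ⊔ V : Set) = H * V`), which is at most `|A|`; and
`A ⊓ V ≤ V ⊓ centralizer A`. -/
def S9_stmt : Prop :=
  ∀ (p : ℕ) (G : Type u) [Group G] [Finite G] (P U V : Subgroup G), p.Prime → U.Normal → V.Normal →
    IsPGroup p P → U ≤ P → V ≤ U → EA p V → (∀ v ∈ V, ∀ x ∈ U, v * x = x * v) →
    PN p (Subgroup.normalizer (JJ p P : Set G)) → ¬ PN p G →
    ∃ A : Subgroup G, A ≤ P ∧ EA p A ∧ ¬ A ≤ U ∧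
      Nat.card V * Nat.card (A ⊓ U : Subgroup G) ≤
        Nat.card A * Nat.card (V ⊓ Subgroup.centralizer (A : Set G) : Subgroup G)

/-! ## Rows T5: the final contradiction in `Aut V`.
`V` is a finite additive group; `Γ = (AddMonoid.End V)ˣ` is its automorphism group, and endomorphisms
form the ring `AddMonoid.End V` (multiplication is composition). -/

/-- Fixed points of a subgroup of automorphisms. -/
def fixpts {V : Type u} [AddCommGroup V] (A : Subgroup (AddMonoid.End V)ˣ) : AddSubgroup V where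
  carrier := {v | ∀ a ∈ A, (a : AddMonoid.End V) v = v}
  zero_mem' := fun a _ => map_zero _
  add_mem' := fun {x y} hx hy a ha => by rw [map_add, hx a ha, hy a ha]
  neg_mem' := fun {x} hx a ha => by rw [map_neg, hx a ha]

/-- Row T5g.  A group theoretic lemma.  `B` is elementary abelian of exponent `p`, `Q` is an abelian group of order prime
to `p`, normalized by `B` (inside some group `Γ`), and `B` does not centralize `Q`.  Then some `x ∈ Q` not centralized
by `B` is centralized by a `C ≤ B` with `|B| = p |C|`.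
Proof: among the `x ∈ Q` not commuting with all of `B` choose one with the largest `C = {b ∈ B | b x = x b}` (a subgroup, by
`Nat.card`).  `C ≠ B`.  Suppose `|B| ≠ p |C|`.  Take `a ∈ B ∖ C`, then `b ∈ B` not in the subgroup generated by `C` and
`a` (whose order is `p |C|`).  For `c ∈ {b} ∪ {a b ^ j | j < p}` (none of them in `C`) let `N c = ∏_{i<p} c^i x c^{-i} ∈ Q` (a product of commuting elements,
`Q` is abelian).  `N c` commutes with `c` (as `c ^ p = 1`) and with `C` (`C` commutes with `c` and `x`), so by the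
choice of `x` it commutes with all of `B`.  Identity in the abelian group `Q`:
`∏_{j<p} N (a b^j) = x^p * ∏_{0<i<p} a^i (N b) a^{-i} = x^p (N b)^{p-1}`, since `(a b^j)^i = a^i b^{ij}` and for `0 < i < p` the map `j ↦ i j`
is a bijection mod `p`, and `N b` commutes with `a`.  So `x ^ p` commutes with all of `B`, hence so does `x` (order
prime to `p`), a contradiction. -/
def T5g_stmt : Prop :=
  ∀ (p : ℕ) (Γ : Type u) [Group Γ] (B Q : Subgroup Γ), p.Prime → Finite B → Finite Q → EA p B →
    (∀ x ∈ Q, ∀ y ∈ Q, x * y = y * x) → (Nat.card Q).Coprime p →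
    (∀ b ∈ B, ∀ x ∈ Q, b * x * b⁻¹ ∈ Q) → (∃ b ∈ B, ∃ x ∈ Q, b * x ≠ x * b) →
    ∃ C : Subgroup Γ, C ≤ B ∧ Nat.card B = p * Nat.card C ∧
      ∃ x ∈ Q, (∀ c ∈ C, c * x = x * c) ∧ ∃ b ∈ B, b * x ≠ x * b

/-- Row T5y.  Let `y ∈ Γ` have order prime to `p`, commute with the `p`-group `C`, and be trivial on the
fixed points of `C`.  Then `y = 1`.  Proof: let `m = orderOf y`, prime to `p`, and `e = Σ_{i<m} y^i ∈ End V`; `e = m` on the fixed points
of `y`, and `y e = e`.  Let `W = ker e` (an `AddSubgroup`); `C` acts on `W` (commutes with `e`).  If `W ≠ ⊥`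
then `C`, a `p`-group acting on the `p`-group `W` (as `p v = 0`), has a nonzero fixed point `w ∈ W`
(`IsPGroup.card_modEq_card_fixedPoints`, `IsPGroup.exists_fixed_point_of_prime_dvd_card_of_fixed_point`); `w` is fixed by
`C`, so by `y`, so `0 = e w = m w`, so `w = 0`, as `m` is prime to `p`.  So `e` is injective, and `e (y v - v) = 0` gives
`y v = v`. -/
def T5y_stmt : Prop :=
  ∀ (p : ℕ) (V : Type u) [AddCommGroup V] [Finite V], p.Prime → (∀ v : V, p • v = 0) →
    ∀ (C : Subgroup (AddMonoid.End V)ˣ) (y : (AddMonoid.End V)ˣ), IsPGroup p C →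
      (orderOf y).Coprime p → (∀ c ∈ C, c * y = y * c) →
      (∀ v ∈ fixpts C, (y : AddMonoid.End V) v = v) → y = 1

/-- Row T5q.  Uses T5g, T5y.
Let `B ≤ A`, `B ≠ ⊥`, be of least order with `|V| ≤ |B| |fixpts B|`.  `B` does not centralize `Q` (faithfulness), so T5g gives `C ≤ B`,
`|B| = p |C|`, and `x ∈ Q` centralized by `C` and not by some `b ∈ B`.
If `C = ⊥`: `|B| = p`; take `β ∈ B`, `β ≠ 1`, it generates `B`.
If `C ≠ ⊥`: `C < B` and by minimality `|C| |fixpts C| < |V| ≤ p |C| |fixpts B|`, so `|fixpts C| < p |fixpts B|`;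
`fixpts B ≤ fixpts C` and all orders are powers of `p`, so `fixpts C = fixpts B`.  Let `y = x b x⁻¹ b⁻¹ ∈ Q`.  It commutes with
`C` (which commutes with `x`, `b`).  `x` maps `fixpts C` to itself and `b` is trivial on
`fixpts C = fixpts B`, so `y` is trivial on `fixpts C`.  T5y: `y = 1`, so `b x = x b`, a contradiction. -/
def T5q_stmt : Prop :=
  ∀ (p : ℕ) (V : Type u) [AddCommGroup V] [Finite V], p.Prime → (∀ v : V, p • v = 0) →
    ∀ A Q : Subgroup (AddMonoid.End V)ˣ, EA p A → A ≠ ⊥ → (∀ x ∈ Q, ∀ y ∈ Q, x * y = y * x) →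
      (Nat.card Q).Coprime p → (∀ b ∈ A, ∀ x ∈ Q, b * x * b⁻¹ ∈ Q) →
      (∀ b ∈ A, (∀ x ∈ Q, b * x = x * b) → b = 1) →
      Nat.card V ≤ Nat.card A * Nat.card (fixpts A) →
      ∃ β ∈ A, β ≠ 1 ∧ Nat.card V ≤ p * Nat.card {v : V // (β : AddMonoid.End V) v = v}

/-- Row T5t.  Proof: put `n = β - 1` in the ring `End V`.  `p n = 0` in `End V`, so `n ^ p = β ^ p - 1 = 0` (Frobenius for the commuting
`β, 1`; or `sub_pow_char_of_commute` in the ring `End V` of characteristic `p`; if `V` is trivial everything is trivial).  The kernel of `n` has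
index at most `p`, so the range of `n` has order `≤ p`; it is a `p`-group, of order `1` or `p`; as `n` is nilpotent
it maps its range properly into itself, so `n * n = 0`.  For `x ∈ Q`: `β x β⁻¹ = (1+n) x (1-n)` and `β⁻¹ x β = (1-n) x (1+n)`
are in `Q`, so both commute with `x`; the difference `2 (n x - x n)` commutes with `x`; `2` is invertible on `V`, so
`d = n x - x n` commutes with `x`.  By induction `n x^k - x^k n = k x^(k-1) d`; for `k = orderOf x`, prime to `p`,
we get `k x^(k-1) d = 0` so `d = 0`, so `β` commutes with `x`. -/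
def T5t_stmt : Prop :=
  ∀ (p : ℕ) (V : Type u) [AddCommGroup V] [Finite V], p.Prime → p ≠ 2 → (∀ v : V, p • v = 0) →
    ∀ (Q : Subgroup (AddMonoid.End V)ˣ) (β : (AddMonoid.End V)ˣ), β ^ p = 1 →
      (∀ x ∈ Q, ∀ y ∈ Q, x * y = y * x) → (Nat.card Q).Coprime p →
      (∀ x ∈ Q, β * x * β⁻¹ ∈ Q) → (∀ x ∈ Q, β⁻¹ * x * β ∈ Q) →
      Nat.card V ≤ p * Nat.card {v : V // (β : AddMonoid.End V) v = v} →
      ∀ x ∈ Q, β * x = x * β

/-- Row S10.  Uses T5q, T5t.
Let `ρ : G →* (AddMonoid.End (Additive V))ˣ` be the conjugation action (`MulAut.conjNormal`, then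
`MulAut V ≃* AddAut (Additive V) →` units of `End`; or build it by hand); `ρ g = 1` iff `g` commutes with `V` iff `g ∈ U`.
Let `A' = A.map ρ`, `Q' = K.map ρ`.  `|A'| = |A| / |A ⊓ U|`, `|Q'| = U.relIndex K`,
`fixpts A'` corresponds to `V ⊓ centralizer A`; `Q'` is abelian, normalized by `A'` (`K` is normal), `A' ≠ ⊥` as `¬ A ≤ U`;
`|V| ≤ |A'| |fixpts A'|`.  T5q and T5t (with `β ∈ A'`) contradict the faithfulness. -/
def S10_stmt : Prop :=
  ∀ (p : ℕ) (G : Type u) [Group G] [Finite G] (U V K A : Subgroup G), p.Prime → p ≠ 2 →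
    U.Normal → V.Normal → K.Normal → V ≤ U → EA p V → (∀ v ∈ V, ∀ x ∈ U, v * x = x * v) →
    (∀ g : G, (∀ v ∈ V, g * v = v * g) → g ∈ U) → U ≤ K → (∀ x ∈ K, ∀ y ∈ K, x * y * x⁻¹ * y⁻¹ ∈ U) →
    (U.relIndex K).Coprime p → EA p A → ¬ A ≤ U → (∀ g ∈ A, (∀ k ∈ K, g * k * g⁻¹ * k⁻¹ ∈ U) → g ∈ U) →
    Nat.card V * Nat.card (A ⊓ U : Subgroup G) ≤
        Nat.card A * Nat.card (V ⊓ Subgroup.centralizer (A : Set G) : Subgroup G) → False

/-- Row TH (Thompson's theorem; assembly).  Uses S1-S10, JBa, JBb, PBa.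
Strong induction on `Nat.card G`.  Suppose `¬ PN p G`.  S2 gives a nontrivial normal `p`-subgroup; let `U` be
the largest normal `p`-subgroup (the join of two normal `p`-subgroups is one: `IsPGroup.to_sup_of_normal_right`), `U ≤ P`.
S3, S4, S5, S6, S7b, S8, S9, S10. -/
def TH_stmt : Prop :=
  ∀ (p : ℕ) (G : Type u) [Group G] [Finite G] (P : Subgroup G), p.Prime → p ≠ 2 →
    Hyp p G P → PN p G

/-! ## Rows K: Kegel's theorem.
`Spl p a R` : `(a r) ^ p = 1` for all `r ∈ R`. -/

/-- `(a r) ^ p = 1` for all `r ∈ R`. -/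
def Spl (p : ℕ) {T : Type u} [Group T] (a : T) (R : Subgroup T) : Prop :=
  ∀ r ∈ R, (a * r) ^ p = 1

/-- Row LA (ring lemma).  Proof: `(t y)^p = 1` since `(t y - 1) Σ_{i<p} (t y)^i = (t y)^p - 1`.
For `0 < i < p` the map `y ↦ t^{-i} (t y)^i` sends `A` to itself (`t` normalizes `A`), and is injective: `(t y)^i = (t z)^i`
implies `t y = t z`, raising to the power `j` with `i j ≡ 1 mod p`; so it is a bijection of the finite set `A`.
Summing the hypothesis over `y ∈ A`: `|A| + (Σ_{0<i<p} t^i) N = 0` with `N = Σ_{y ∈ A} y`.  Multiplying on the right by `1 - z`,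
`z ∈ A`, and `N z = N`: `|A| (1 - z) = 0`, so `z = 1`. -/
def LA_stmt : Prop :=
  ∀ (p : ℕ) (E : Type u) [Ring E] (t : Eˣ) (A : Subgroup Eˣ) [Finite A], p.Prime →
    (∀ y ∈ A, t * y * t⁻¹ ∈ A) → (∀ y ∈ A, t⁻¹ * y * t ∈ A) →
    (∀ e : E, (Nat.card A : E) * e = 0 → e = 0) →
    (∀ y ∈ A, ∑ i ∈ Finset.range p, ((t * y : Eˣ) : E) ^ i = 0) → A = ⊥

/-- Row KM1.  Uses LA.  `N` is a normal elementary abelian `s`-subgroup, `Y` is an `r`-group with `r ≠ s`, `t` normalizes `Y`, and
`(t y v) ^ p = 1` for `y ∈ Y`, `v ∈ N`.  Then `Y` commutes with `N`.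
Proof: `E = AddMonoid.End (Additive N)`, conjugation `ρ : T →* Eˣ`.  Apply LA to `ρ t` and `Y.map ρ`; the order of `Y.map ρ` is a
power of `r`, hence invertible on `N`.  For `w = t y`: `(w v)^p = (∏_{i=1..p} w^i v w^{-i}) w^p` (in this order; `N` is
abelian), `w^p = 1` and `(w v)^p = 1`, so `Σ_{i<p} (ρ w)^i v = 0` additively (note `w^p = 1`, so the sum over `i = 1..p` is
the sum over `i < p`). -/
def KM1_stmt : Prop :=
  ∀ (p r s : ℕ) (T : Type u) [Group T] [Finite T] (N Y : Subgroup T) (t : T), p.Prime → r.Prime →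
    s.Prime → r ≠ s → N.Normal → EA s N → IsPGroup r Y →
    (∀ y ∈ Y, t * y * t⁻¹ ∈ Y) → (∀ y ∈ Y, t⁻¹ * y * t ∈ Y) →
    (∀ y ∈ Y, ∀ v ∈ N, (t * y * v) ^ p = 1) → ∀ y ∈ Y, ∀ v ∈ N, y * v = v * y

/-- Row KM2.  Uses KM1.  Proof: show that every Sylow subgroup of `R` is normal in `R`
(`Group.isNilpotent_of_finite_tfae`, `Sylow` version).  Let `r` be a prime, `Y` a Sylow `r`-subgroup of `R` (as a subgroup of `T`).
The image of `Y` in `R ⧸ N` is a Sylow subgroup of a nilpotent group, so it is characteristic there, so `Y ⊔ N` is normal in `T`.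
If `r = s`, then `N ≤ Y` (normal `s`-subgroup of `R`) and so `Y = Y ⊔ N` is normal.
If `r ≠ s`: Frattini (`Y` is a Sylow subgroup of `Y ⊔ N`, normal in `T`): `normalizer Y ⊔ N = ⊤` (`⊔ N` is enough: conjugate by elements of `N`), so
`a = t n₀⁻¹` with `t = a n₀` normalizing `Y`, `n₀ ∈ N`; then `t y v = a (n₀ y v)` has `p`-th power one for `y ∈ Y`, `v ∈ N`.  KM1: `Y`
commutes with `N`, so `Y` is normal in `Y ⊔ N`, therefore characteristic in it (Sylow), therefore normal in `T`. -/
def KM2_stmt : Prop :=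
  ∀ (p s : ℕ) (T : Type u) [Group T] [Finite T] (R N : Subgroup T) [N.Normal] (a : T), p.Prime →
    s.Prime → R.Normal → N ≤ R → EA s N → Group.IsNilpotent (R.map (QuotientGroup.mk' N)) →
    Spl p a R → Group.IsNilpotent R

/-- Row MNE.  Proof: the center of `R` is nontrivial (nilpotent), let `s` be a prime dividing its order and
`N = {x ∈ R | x commutes with R, x ^ s = 1}` (this is `OZ s R`); it is normal in `T` as `R` is. -/
def MNE_stmt : Prop :=
  ∀ (T : Type u) [Group T] [Finite T] (R : Subgroup T), R.Normal → R ≠ ⊥ → Group.IsNilpotent R →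
    ∃ s : ℕ, s.Prime ∧ ∃ N : Subgroup T, N.Normal ∧ N ≤ R ∧ N ≠ ⊥ ∧ EA s N

/-- Kegel's theorem for `Nat.card R < n`. -/
def KIH (p n : ℕ) : Prop :=
  ∀ (T : Type u) [Group T] [Finite T] (R : Subgroup T) (a : T), R.Normal → Spl p a R →
    Nat.card R < n → Group.IsNilpotent R

/-- Row KB.  Uses TH, JBa (1)-(6), JBb (1), (2), PBa, PBb (1).
`R ≠ ⊥`.  If `R` is a `2`-group it is nilpotent.  Otherwise let `r` be an odd prime dividing `Nat.card R`, `Q` a Sylow `r`-subgroup of `R`,
seen as a subgroup of `T`.  Let `X` be `JJ r Q` or `OZ r Q`; `X ≠ ⊥`, `X ≤ Q ≤ R`.  If `X` is normal in `T` then `X = R` by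
minimality, and `R` is an `r`-group, nilpotent.  Otherwise Frattini (`Sylow.normalizer_sup_eq_top` for `R` normal): `normalizer Q ⊔ R = ⊤` and
`normalizer Q ≤ normalizer X` (JBa), so `a = t r₀⁻¹`, `t = a r₀ ∈ normalizer X`, `r₀ ∈ R`.  Let `T' = normalizer X`, `R' = R ⊓ T'` as a subgroup of `T'`:
`Spl p t R'`, and `Nat.card R' < Nat.card R` (if `R ≤ normalizer X`, then `normalizer X ≥ normalizer X ⊔ R ≥ normalizer Q ⊔ R = ⊤`).
By `KIH`, `R'` is nilpotent, so `PN r R'` (a finite nilpotent group has a normal complement: e.g. show that elements of order prime to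
`r` form it; or `Group.isNilpotent_of_finite_tfae`, it is the product of its Sylow subgroups).  Thus `Hyp r R (Q.subgroupOf R)` (JBa (3), (4)), and TH gives
`PN r R`.  The complement `K` consists of the elements of `R` of order prime to `r` (PBb (1)), so it is normal in `T`; by minimality
`K = ⊥` or `K = R`.  `K = R` is impossible since `r` divides `Nat.card R`.  So `K = ⊥`, and `R` is an `r`-group, nilpotent. -/
def KB_stmt : Prop :=
  ∀ (p : ℕ) (T : Type u) [Group T] [Finite T] (R : Subgroup T) (a : T), p.Prime → R.Normal →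
    Spl p a R → KIH.{u} p (Nat.card R) → (∀ M : Subgroup T, M.Normal → M ≤ R → M = ⊥ ∨ M = R) →
    Group.IsNilpotent R

/-- Row KG (Kegel's theorem; assembly).  Uses KB, KM2, MNE.
Strong induction on `Nat.card R`.  If no normal subgroup `M` of `T` is strictly between `⊥` and `R`, KB.  Otherwise such an `M` is
nilpotent by induction (`Spl` passes to `M`); MNE gives `N ≤ M`, elementary abelian, `N ≠ ⊥`, normal.  `R.map (mk' N)` in `T ⧸ N` is
nilpotent by induction; KM2. -/
def KG_stmt : Prop :=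
  ∀ (p : ℕ) (T : Type u) [Group T] [Finite T] (R : Subgroup T) (a : T), p.Prime → R.Normal →
    Spl p a R → Group.IsNilpotent R

/-! ## Rows for the infinite group -/

/-- Row CQ.  `f : G → Q` onto, finite groups.  Count `S = {g | f g commutes with f a}` of order `|C_Q(f a)| |ker f|`.
`g ↦ g a g⁻¹` maps `S` to `{x | f x = f a}` (of order `|ker f|`), with fibres of size `|C_G(a)|` or empty (left cosets of
`C_G(a)`).  So `|S| ≤ |C_G(a)| |ker f|`, and if equality holds the map is onto. -/
def CQ_stmt : Prop :=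
  ∀ (G Q : Type u) [Group G] [Group Q] [Finite G] [Finite Q] (f : G →* Q) (a : G),
    Function.Surjective f →
    Nat.card (Subgroup.centralizer {f a}) ≤ Nat.card (Subgroup.centralizer {a}) ∧
    (Nat.card (Subgroup.centralizer {a}) ≤ Nat.card (Subgroup.centralizer {f a}) →
      ∀ x : G, f x = f a → ∃ g : G, x = g * a * g⁻¹)

/-- Row GL1.  Uses CQ, KG.  `G` is an infinite group generated by `a`, `b`, `a ^ p = 1`, and
`D = {g | ⟨a, g⁻¹ b g⟩ is infinite}` is finite.  Then there is a normal `N₀` of finite index such that `N₀ ⧸ N` is nilpotent for every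
normal `N ≤ N₀` of finite index.
Proof: `C_G(a) ⊆ D` (for `g` commuting with `a`, `⟨a, g⁻¹ b g⟩ = g⁻¹ ⟨a, b⟩ g = G`), so `C_G(a)` is finite; let `c` be its
order.  For `N` normal of finite index, `N` is infinite, pick `g ∈ N ∖ D`: `L = ⟨a, g⁻¹ b g⟩` is finite and `L → G ⧸ N` is onto
(`g⁻¹ b g ≡ b`).  By CQ, `|C_{G/N}(a)| ≤ |C_L(a)| ≤ c`.  Choose `N₀` with `|C_{G/N₀}(a)|` maximal.  For `N ≤ N₀`, CQ for
`G/N → G/N₀` gives `|C_{G/N₀}(a)| ≤ |C_{G/N}(a)|`, so equality, so every `x ∈ G/N` with the same image as `a` in `G/N₀` is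
conjugate to `a`, so `x ^ p = 1`.  So `Spl p (a mod N) (N₀ mod N)` and KG. -/
def GL1_stmt : Prop :=
  ∀ (p : ℕ) (G : Type u) [Group G] (a b : G), p.Prime → Infinite G →
    Subgroup.closure {a, b} = ⊤ → a ^ p = 1 →
    {g : G | (Subgroup.closure ({a, g⁻¹ * b * g} : Set G) : Set G).Infinite}.Finite →
    ∃ N₀ : Subgroup G, N₀.Normal ∧ N₀.FiniteIndex ∧
      ∀ (N : Subgroup G) [N.Normal], N.FiniteIndex → N ≤ N₀ →
        Group.IsNilpotent (N₀.map (QuotientGroup.mk' N))

/-- Row GL2.  A finitely generated group `H` (no other assumption) all of whose quotients `H ⧸ N`, for `N` in a family `F` of finite index normal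
subgroups of unbounded index, are nilpotent, has for some prime `q` normal subgroups of index
`q ^ e`, with `e` unbounded.
Proof: for `N ∈ F` and a prime `q`, `H ⧸ N` is the direct product of its Sylow subgroups, so it has a quotient of order
`q ^ (v_q |H ⧸ N|)` (e.g. a nilpotent finite group has a normal `q`-complement).  If for some prime `q` the exponents `v_q |H ⧸ N|`, `N ∈ F`, are unbounded we are done.
Otherwise infinitely many primes `q` divide some `|H ⧸ N|`, `N ∈ F` (else the indices are bounded); a nontrivial finite `q`-group has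
a quotient of order `q`, so `H` has a homomorphism onto `ZMod q`-like groups of order `q` for infinitely many primes `q`; hence the
abelianization of `H` is infinite (`q` divides its order), and it is finitely generated, so `H` maps onto `ℤ`
(`Pool.Agent.helper9.TG` has `exists_onto_int`, see `Pool/Agent/helper9/TG/D.lean`), and onto groups of order `2 ^ e` for all `e`. -/
def GL2_stmt : Prop :=
  ∀ (H : Type u) [Group H] [Group.FG H],
    (∀ m : ℕ, ∃ N : Subgroup H, ∃ _ : N.Normal, N.FiniteIndex ∧ m ≤ N.index ∧ Group.IsNilpotent (H ⧸ N)) →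
    ∃ q : ℕ, q.Prime ∧ ∀ m : ℕ, ∃ e : ℕ, m ≤ e ∧ ∃ U : Subgroup H, U.Normal ∧ U.index = q ^ e

end Pool.Agent.helper9.TH
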