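import Pool.Agent.helper48.TH.Spec

set_option autoImplicit false

namespace TP.TW

open DP MeasureTheory Finset

theorem VSA_prob : IsProbabilityMeasure P1 := by
  unfold P1
  infer_instance

theorem VSA_nonneg (F : Set (V → Bool)) : 0 ≤ Pr F := measureReal_nonneg

theorem VSA_mono {F G : Set (V → Bool)} (h : F ⊆ G) : Pr F ≤ Pr G := by
  have := VSA_prob
  exact measureReal_mono h

theorem VSA_le_one (F : Set (V → Bool)) : Pr F ≤ 1 := by
  have := VSA_prob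
  exact measureReal_le_one

theorem VSA_biU {ι : Type} (s : Finset ι) (f : ι → Set (V → Bool)) (F : Set (V → Bool))
    (h : ∀ β ∈ F, ∃ i ∈ s, β ∈ f i) : Pr F ≤ ∑ i ∈ s, Pr (f i) := by
  have := VSA_prob
  have h1 : F ⊆ ⋃ i ∈ s, f i := by
    intro β hβ
    obtain ⟨i, hi, hi2⟩ := h β hβ
    exact Set.mem_biUnion (show i ∈ (s : Set ι) from hi) hi2
  exact (VSA_mono h1).trans (measureReal_biUnion_finset_le s f)

/-- the shifted coins -/
def VSA_sh (τ : ℕ × ℕ) (β : V → Bool) : V → Bool := fun v => β (v.1 + 2 * (τ.1 : ℤ), v.2 + 2 * (τ.2 : ℤ))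

/-- subtraction of the shift -/
def VSA_sb (z : V) (τ : ℕ × ℕ) : V := (z.1 - 2 * (τ.1 : ℤ), z.2 - 2 * (τ.2 : ℤ))

theorem VSA_inj (z : V) : Function.Injective (VSA_sb z) := by
  rintro ⟨x, y⟩ ⟨u, w⟩ h
  simp only [VSA_sb, Prod.mk.injEq] at h ⊢
  omega

theorem VSA_rf (a b d e : ℤ) (z : V) (hz : z ∈ rf a b d e) : a - 1 ≤ z.1 ∧ z.1 ≤ b ∧ d ≤ z.2 ∧ z.2 ≤ e := by
  unfold rf at hz
  rw [mem_image] at hz
  obtain ⟨w, hw, rfl⟩ := hz
  rw [mem_product, mem_Icc, mem_Icc] at hw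
  unfold br
  split_ifs
  · omega
  · dsimp only; omega

theorem VSA_crs_congr (o k : Bool) (β β' : V → Bool) (S : Finset V) (a b d e : ℤ)
    (h : ∀ v ∈ rf a b d e, β v = β' v) (hc : crs o (col β) k (til S) a b d e) :
    crs o (col β') k (til S) a b d e := by
  obtain ⟨u, v, h1, h2⟩ := hc
  refine ⟨u, v, h1, ?_⟩
  refine Con.mono ?_ h2
  rintro w ⟨hw1, hw2⟩
  refine ⟨hw1, ?_⟩
  rw [← hw2]
  have hbr : br w ∈ rf a b d e := by
    unfold rf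
    refine mem_image_of_mem br ?_
    have := hw1.1
    rw [mem_product, mem_Icc, mem_Icc]
    exact ⟨⟨this.1, this.2.1⟩, this.2.2.1, this.2.2.2⟩
  exact (h _ hbr).symm

open Classical in
theorem VSA_core (shi : SHI_stmt) (shp : SHP_stmt) (inp : INP_stmt) (plg : PLG_stmt) (o k : Bool)
    (A Ω : Finset V) (B : (V → Bool) → Finset V) (hTwo : Two A Ω B) (a b d e a' b' d' e' : ℤ)
    (s t : ℕ) (C : ℝ) (Z : (V → Bool) → Finset V) (hZ1 : ∀ β, Z β ⊆ rf a' b' d' e')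
    (hZ2 : ∀ z, CD {β | z ∈ Z β} (rf a' b' d' e'))
    (hZ3 : ∀ (β : V → Bool) (S : Finset V), crs o (col β) k (til S) a' b' d' e' → ∃ z ∈ Z β, z ∈ S)
    (hZ4 : ∑ z ∈ rf a' b' d' e', Pr {β | z ∈ Z β} ≤ C)
    (hm : ∀ (c : V → Bool) (W : Set V) (i j : ℤ), 0 ≤ i → i ≤ s → 0 ≤ j → j ≤ s →
      crs o c k W (a + 2 * i) (b + 2 * i) (d + 2 * j) (e + 2 * j) → crs o c k W a' b' d' e')
    (n1 : a - t ≤ a' - 1 - 2 * s) (n2 : b' ≤ b + t) (n3 : d - t ≤ d' - 2 * s) (n4 : e' ≤ e + t) :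
    ((s : ℝ) + 1) ^ 2 * Pr {β | crs o (col β) k (til (A ∪ B β)) a b d e} ≤
      #(nr A a b d e t) * C + #(nr A a b d e t) * ((C + 1) * Real.log (#(rf a' b' d' e') + 3)) +
        2 * C * ∑ v ∈ nr Ω a b d e t, Pr {β | v ∈ B β} := by
  obtain ⟨-, -, hBΩ, hBA⟩ := hTwo
  obtain ⟨U, hU⟩ : ∃ U : Finset V, U = rf a' b' d' e' := ⟨_, rfl⟩
  obtain ⟨M, hM⟩ : ∃ M : ℕ, M = #(nr A a b d e t) := ⟨_, rfl⟩
  obtain ⟨W, hW⟩ : ∃ W : ℝ, W = ∑ v ∈ nr Ω a b d e t, Pr {β | v ∈ B β} := ⟨_, rfl⟩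
  obtain ⟨P, hP⟩ : ∃ P : ℝ, P = Pr {β | crs o (col β) k (til (A ∪ B β)) a b d e} := ⟨_, rfl⟩
  obtain ⟨p, hp⟩ : ∃ p : V → ℝ, p = fun z => Pr {β | z ∈ Z β} := ⟨_, rfl⟩
  obtain ⟨T, hT⟩ : ∃ T : Finset (ℕ × ℕ), T = range (s + 1) ×ˢ range (s + 1) := ⟨_, rfl⟩
  rw [← hU, ← hM, ← hW, ← hP]
  rw [← hU] at hZ1 hZ2 hZ4
  have hW0 : 0 ≤ W := by rw [hW]; exact sum_nonneg fun v _ => VSA_nonneg _
  have hp0 : ∀ z, 0 ≤ p z := fun z => by rw [hp]; exact VSA_nonneg _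
  have hTm : ∀ τ ∈ T, τ.1 ≤ s ∧ τ.2 ≤ s := by
    intro τ hτ
    rw [hT, mem_product, mem_range, mem_range] at hτ
    omega
  have hTc : (#T : ℝ) = ((s : ℝ) + 1) ^ 2 := by
    rw [hT, card_product, card_range]
    push_cast
    ring
  have hnr : ∀ z ∈ U, ∀ τ ∈ T, a - t ≤ (VSA_sb z τ).1 ∧ (VSA_sb z τ).1 ≤ b + t ∧
      d - t ≤ (VSA_sb z τ).2 ∧ (VSA_sb z τ).2 ≤ e + t := by
    intro z hz τ hτ
    rw [hU] at hz
    have h1 := VSA_rf _ _ _ _ z hz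
    have h2 := hTm τ hτ
    simp only [VSA_sb]
    omega
  have hcard : ∀ z ∈ U, #(T.filter fun τ => VSA_sb z τ ∈ A) ≤ M := by
    intro z hz
    rw [hM]
    refine card_le_card_of_injOn (VSA_sb z) ?_ ((VSA_inj z).injOn)
    intro τ hτ
    rw [mem_coe, mem_filter] at hτ
    rw [mem_coe, nr, mem_filter]
    exact ⟨hτ.2, hnr z hz τ hτ.1⟩
  -- dependence
  have hCDB : ∀ v : V, CD {β | v ∈ B β} A := by
    intro v β β' h
    show v ∈ B β ↔ v ∈ B β'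
    rw [hBA β β' h]
  have hCDE : CD {β | crs o (col β) k (til (A ∪ B β)) a b d e} (A ∪ rf a b d e) := by
    intro β β' h
    have h1 : B β = B β' := hBA β β' fun v hv => h v (mem_union_left _ hv)
    show crs o (col β) k (til (A ∪ B β)) a b d e ↔ crs o (col β') k (til (A ∪ B β')) a b d e
    rw [h1]
    exact ⟨VSA_crs_congr o k β β' _ a b d e fun v hv => h v (mem_union_right _ hv),
      VSA_crs_congr o k β' β _ a b d e fun v hv => (h v (mem_union_right _ hv)).symm⟩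
  -- step 1
  have step1 : ∀ τ ∈ T, P ≤ ∑ z ∈ U, ((if VSA_sb z τ ∈ A then p z else 0) +
      Pr ({β | z ∈ Z β} ∩ {β | VSA_sb z τ ∈ B (VSA_sh τ β)})) := by
    intro τ hτ
    have h1 := shp _ _ hCDE (2 * (τ.1 : ℤ)) (2 * (τ.2 : ℤ))
    rw [hP, ← h1]
    refine (VSA_biU U (fun z => {β | z ∈ Z β ∧ VSA_sb z τ ∈ A ∪ B (VSA_sh τ β)}) _ ?_).trans ?_
    · intro β hβ
      have h2 : crs o (col (VSA_sh τ β)) k (til (A ∪ B (VSA_sh τ β))) a b d e := hβ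
      have h3 := (shi o k β (A ∪ B (VSA_sh τ β)) a b d e τ.1 τ.2).1 h2
      have h4 := hTm τ hτ
      have h5 := hm (col β) _ τ.1 τ.2 (by omega) (by omega) (by omega) (by omega) h3
      obtain ⟨z, hz, hz2⟩ := hZ3 β _ h5
      refine ⟨z, hZ1 β hz, hz, ?_⟩
      unfold shf at hz2
      rw [mem_image] at hz2
      obtain ⟨v, hv, rfl⟩ := hz2
      have h6 : VSA_sb (v.1 + 2 * (τ.1 : ℤ), v.2 + 2 * (τ.2 : ℤ)) τ = v := by
        unfold VSA_sb
        ext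
        · dsimp only; omega
        · dsimp only; omega
      rw [h6]
      exact hv
    · refine sum_le_sum fun z _ => ?_
      by_cases h : VSA_sb z τ ∈ A
      · rw [if_pos h]
        have h2 : Pr {β | z ∈ Z β ∧ VSA_sb z τ ∈ A ∪ B (VSA_sh τ β)} ≤ p z := by
          rw [hp]
          exact VSA_mono fun β hβ => hβ.1
        have h3 := VSA_nonneg ({β | z ∈ Z β} ∩ {β | VSA_sb z τ ∈ B (VSA_sh τ β)})
        linarith
      · rw [if_neg h, zero_add]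
        refine VSA_mono fun β hβ => ⟨hβ.1, ?_⟩
        exact (mem_union.1 hβ.2).resolve_left h
  -- the two sums
  have step2 : ∀ z ∈ U, ∑ τ ∈ T, Pr {β | VSA_sb z τ ∈ B (VSA_sh τ β)} ≤ W := by
    intro z hz
    have h1 : ∀ τ ∈ T, Pr {β | VSA_sb z τ ∈ B (VSA_sh τ β)} = Pr {β | VSA_sb z τ ∈ B β} := by
      intro τ _
      exact shp _ _ (hCDB (VSA_sb z τ)) (2 * (τ.1 : ℤ)) (2 * (τ.2 : ℤ))
    rw [sum_congr rfl h1]
    have h2 : ∑ τ ∈ T, Pr {β | VSA_sb z τ ∈ B β} =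
        ∑ τ ∈ T.filter (fun τ => VSA_sb z τ ∈ Ω), Pr {β | VSA_sb z τ ∈ B β} := by
      symm
      refine sum_filter_of_ne ?_
      intro τ _ hne
      by_contra h
      apply hne
      have : {β : V → Bool | VSA_sb z τ ∈ B β} = ∅ := by
        ext β
        simp only [Set.mem_empty_iff_false, iff_false]
        intro h3
        exact h (hBΩ β h3)
      rw [this]
      simp [Pr]
    rw [h2, hW]
    have h3 : ∑ τ ∈ T.filter (fun τ => VSA_sb z τ ∈ Ω), Pr {β | VSA_sb z τ ∈ B β} =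
        ∑ v ∈ (T.filter (fun τ => VSA_sb z τ ∈ Ω)).image (VSA_sb z), Pr {β | v ∈ B β} :=
      (Finset.sum_image (f := fun v => Pr {β | v ∈ B β}) (fun x _ y _ h => VSA_inj z h)).symm
    rw [h3]
    refine sum_le_sum_of_subset_of_nonneg ?_ fun v _ _ => VSA_nonneg _
    intro v hv
    rw [mem_image] at hv
    obtain ⟨τ, hτ, rfl⟩ := hv
    rw [mem_filter] at hτ
    rw [nr, mem_filter]
    exact ⟨hτ.2, hnr z hz τ hτ.1⟩
  have step3 : ∀ z ∈ U, ∑ τ ∈ T, Pr ({β | z ∈ Z β} ∩ {β | VSA_sb z τ ∈ B (VSA_sh τ β)}) ≤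
      M * (p z * Real.log (1 / p z)) + 2 * p z * W := by
    intro z hz
    have h1 := inp (ℕ × ℕ) T {β | z ∈ Z β} (fun τ => {β | VSA_sb z τ ∈ B (VSA_sh τ β)}) U
      (fun τ => A.image fun v => (v.1 + 2 * (τ.1 : ℤ), v.2 + 2 * (τ.2 : ℤ))) M (hZ2 z) (by
        intro τ _ β β' h
        show VSA_sb z τ ∈ B (VSA_sh τ β) ↔ VSA_sb z τ ∈ B (VSA_sh τ β')
        rw [hBA (VSA_sh τ β) (VSA_sh τ β') fun v hv =>
          h _ (mem_image_of_mem (fun v : V => (v.1 + 2 * (τ.1 : ℤ), v.2 + 2 * (τ.2 : ℤ))) hv)]) (by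
        intro v hv
        refine le_trans (card_le_card ?_) (hcard v hv)
        intro τ hτ
        rw [mem_filter, mem_image] at hτ
        obtain ⟨hτT, w, hw, hwv⟩ := hτ
        rw [mem_filter]
        refine ⟨hτT, ?_⟩
        have h6 : VSA_sb v τ = w := by
          rw [← hwv]
          unfold VSA_sb
          ext
          · dsimp only; omega
          · dsimp only; omega
        rw [h6]
        exact hw)
    have h2 := step2 z hz
    have h3 : Pr {β | z ∈ Z β} = p z := by rw [hp]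
    rw [h3] at h1
    have h4 : 2 * p z * ∑ τ ∈ T, Pr {β | VSA_sb z τ ∈ B (VSA_sh τ β)} ≤ 2 * p z * W :=
      mul_le_mul_of_nonneg_left h2 (by have := hp0 z; linarith)
    calc _ ≤ _ := h1
      _ ≤ p z * (M * Real.log (1 / p z)) + 2 * p z * W := by linarith
      _ = _ := by ring
  have hlog : 0 ≤ Real.log ((#U : ℝ) + 3) := Real.log_nonneg (by
    have : (0 : ℝ) ≤ (#U : ℝ) := Nat.cast_nonneg _
    linarith)
  have hplg := plg U p fun z _ => hp0 z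
  have hpC : ∑ z ∈ U, p z ≤ C := by rw [hp]; exact hZ4
  have hM0 : (0 : ℝ) ≤ M := Nat.cast_nonneg _
  calc ((s : ℝ) + 1) ^ 2 * P = ∑ τ ∈ T, P := by rw [sum_const, nsmul_eq_mul, hTc]
    _ ≤ ∑ τ ∈ T, ∑ z ∈ U, ((if VSA_sb z τ ∈ A then p z else 0) +
      Pr ({β | z ∈ Z β} ∩ {β | VSA_sb z τ ∈ B (VSA_sh τ β)})) := sum_le_sum step1
    _ = ∑ z ∈ U, ∑ τ ∈ T, ((if VSA_sb z τ ∈ A then p z else 0) +
      Pr ({β | z ∈ Z β} ∩ {β | VSA_sb z τ ∈ B (VSA_sh τ β)})) := sum_comm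
    _ ≤ ∑ z ∈ U, (M * p z + (M * (p z * Real.log (1 / p z)) + 2 * p z * W)) := by
      refine sum_le_sum fun z hz => ?_
      rw [sum_add_distrib]
      refine add_le_add ?_ (step3 z hz)
      rw [← sum_filter, sum_const, nsmul_eq_mul]
      exact mul_le_mul_of_nonneg_right (by exact_mod_cast hcard z hz) (hp0 z)
    _ = M * ∑ z ∈ U, p z + (M * ∑ z ∈ U, p z * Real.log (1 / p z) + 2 * (∑ z ∈ U, p z) * W) := by
      rw [sum_add_distrib, sum_add_distrib, mul_sum, mul_sum, mul_sum, sum_mul]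
    _ ≤ M * C + (M * ((C + 1) * Real.log (#U + 3)) + 2 * C * W) := by
      refine add_le_add (mul_le_mul_of_nonneg_left hpC hM0) (add_le_add ?_ ?_)
      · refine mul_le_mul_of_nonneg_left (hplg.trans ?_) hM0
        exact mul_le_mul_of_nonneg_right (by linarith) hlog
      · exact mul_le_mul_of_nonneg_right (by linarith) hW0
    _ = _ := by ring

theorem VSA_small (o k : Bool) (A Ω : Finset V) (B : (V → Bool) → Finset V) (hTwo : Two A Ω B)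
    (a b d e : ℤ) (t : ℕ) (ht : 1 ≤ t) :
    Pr {β | crs o (col β) k (til (A ∪ B β)) a b d e} ≤
      #(nr A a b d e t) + ∑ v ∈ nr Ω a b d e t, Pr {β | v ∈ B β} := by
  obtain ⟨-, -, hBΩ, -⟩ := hTwo
  have hS0 : 0 ≤ ∑ v ∈ nr Ω a b d e t, Pr {β | v ∈ B β} := sum_nonneg fun v _ => VSA_nonneg _
  have key : ∀ β ∈ {β | crs o (col β) k (til (A ∪ B β)) a b d e}, ∃ v : V, v ∈ A ∪ B β ∧
      a - t ≤ v.1 ∧ v.1 ≤ b + t ∧ d - t ≤ v.2 ∧ v.2 ≤ e + t := by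
    rintro β ⟨u, v, -, h⟩
    have h1 : u ∈ rect a b d e := h.1.1.1
    have h2 : br u ∈ A ∪ B β := h.1.1.2
    refine ⟨br u, h2, ?_⟩
    have h3 : br u ∈ rf a b d e := by
      unfold rf
      refine mem_image_of_mem br ?_
      rw [mem_product, mem_Icc, mem_Icc]
      exact ⟨⟨h1.1, h1.2.1⟩, h1.2.2.1, h1.2.2.2⟩
    have h4 := VSA_rf _ _ _ _ _ h3
    omega
  by_cases hA : (nr A a b d e t).Nonempty
  · have h1 : (1 : ℝ) ≤ #(nr A a b d e t) := by exact_mod_cast card_pos.2 hA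
    have h2 := VSA_le_one {β | crs o (col β) k (til (A ∪ B β)) a b d e}
    linarith
  · have h1 : Pr {β | crs o (col β) k (til (A ∪ B β)) a b d e} ≤
        ∑ v ∈ nr Ω a b d e t, Pr {β | v ∈ B β} := by
      refine VSA_biU _ _ _ ?_
      intro β hβ
      obtain ⟨v, hv, hv2⟩ := key β hβ
      rcases mem_union.1 hv with h | h
      · exact absurd ⟨v, by rw [nr, mem_filter]; exact ⟨h, hv2⟩⟩ hA
      · exact ⟨v, by rw [nr, mem_filter]; exact ⟨hBΩ β h, hv2⟩, h⟩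
    have h2 : (0 : ℝ) ≤ #(nr A a b d e t) := Nat.cast_nonneg _
    linarith

theorem VSA_rfcard (a b d e : ℤ) (x y : ℕ) (h1 : b - a + 1 ≤ x) (h2 : e - d + 1 ≤ y) :
    #(rf a b d e) ≤ x * y := by
  unfold rf
  refine card_image_le.trans ?_
  rw [card_product, Int.card_Icc, Int.card_Icc]
  exact Nat.mul_le_mul (by omega) (by omega)

/-- the last step -/
theorem VSA_fin (P C M W : ℝ) (s t u : ℕ) (hC : 0 < C) (ht : 1 ≤ t) (hs : t ≤ 16 * (s + 1)) (hP : 0 ≤ P)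
    (hM : 0 ≤ M) (hW : 0 ≤ W) (hu : u ≤ 8 * t * (3 * t))
    (h : ((s : ℝ) + 1) ^ 2 * P ≤ M * C + M * ((C + 1) * Real.log (u + 3)) + 2 * C * W) :
    P ≤ 256 * (8 * C + 5) * (M * Real.log (t + 2) + W) / (t : ℝ) ^ 2 := by
  have ht1 : (1 : ℝ) ≤ t := by exact_mod_cast ht
  have ht0 : (0 : ℝ) < (t : ℝ) ^ 2 := by positivity
  have hl1 : (1 : ℝ) ≤ Real.log (t + 2) := by
    rw [Real.le_log_iff_exp_le (by linarith)]
    have := Real.exp_one_lt_d9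
    linarith
  have hl2 : Real.log (u + 3) ≤ 5 * Real.log (t + 2) := by
    have h5 : (5 : ℝ) * Real.log (t + 2) = Real.log ((t + 2 : ℝ) ^ 5) := by
      rw [Real.log_pow]; norm_num
    rw [h5]
    apply Real.log_le_log (by positivity)
    have hu2 : (u : ℝ) ≤ 8 * t * (3 * t) := by exact_mod_cast hu
    have h6 : (27 : ℝ) ≤ (t + 2 : ℝ) ^ 3 := by
      have : (3 : ℝ) ^ 3 ≤ (t + 2 : ℝ) ^ 3 := pow_le_pow_left₀ (by norm_num) (by linarith) 3
      linarith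
    have h7 : (t : ℝ) ^ 2 ≤ (t + 2 : ℝ) ^ 2 := pow_le_pow_left₀ (by linarith) (by linarith) 2
    have h8 : (1 : ℝ) ≤ (t : ℝ) ^ 2 := by nlinarith
    calc (u : ℝ) + 3 ≤ 27 * (t : ℝ) ^ 2 := by nlinarith
      _ ≤ (t + 2 : ℝ) ^ 3 * (t + 2 : ℝ) ^ 2 := mul_le_mul h6 h7 (by positivity) (by positivity)
      _ = (t + 2 : ℝ) ^ 5 := by ring
  rw [le_div_iff₀ ht0]
  have h1 : (t : ℝ) ≤ 16 * ((s : ℝ) + 1) := by exact_mod_cast hs
  have h2 : (t : ℝ) ^ 2 ≤ (16 * ((s : ℝ) + 1)) ^ 2 := pow_le_pow_left₀ (Nat.cast_nonneg _) h1 2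
  have h3 : M * C ≤ M * (C * Real.log (t + 2)) :=
    mul_le_mul_of_nonneg_left (by nlinarith) hM
  have h4 : M * ((C + 1) * Real.log (u + 3)) ≤ M * ((C + 1) * (5 * Real.log (t + 2))) :=
    mul_le_mul_of_nonneg_left (mul_le_mul_of_nonneg_left hl2 (by linarith)) hM
  have h5 : 0 ≤ M * Real.log (t + 2) := mul_nonneg hM (by linarith)
  have h6 : M * C + M * ((C + 1) * Real.log (u + 3)) + 2 * C * W ≤
      (8 * C + 5) * (M * Real.log (t + 2) + W) := by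
    have e1 : M * (C * Real.log (t + 2)) = C * (M * Real.log (t + 2)) := by ring
    have e2 : M * ((C + 1) * (5 * Real.log (t + 2))) = (5 * C + 5) * (M * Real.log (t + 2)) := by ring
    have e3 : 0 ≤ C * (M * Real.log (t + 2)) := mul_nonneg hC.le h5
    have e4 : 0 ≤ C * W := mul_nonneg hC.le hW
    nlinarith
  calc P * (t : ℝ) ^ 2 ≤ P * (16 * ((s : ℝ) + 1)) ^ 2 := mul_le_mul_of_nonneg_left h2 hP
    _ = 256 * (((s : ℝ) + 1) ^ 2 * P) := by ring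
    _ ≤ 256 * ((8 * C + 5) * (M * Real.log (t + 2) + W)) := by linarith
    _ = _ := by ring

theorem VSA_small2 (P M W K : ℝ) (t L : ℕ) (ht : 1 ≤ t) (htL : t < L) (hM : 0 ≤ M) (hW : 0 ≤ W)
    (hK : (L : ℝ) ^ 2 ≤ K) (h : P ≤ M + W) : P ≤ K * (M * Real.log (t + 2) + W) / (t : ℝ) ^ 2 := by
  have ht1 : (1 : ℝ) ≤ t := by exact_mod_cast ht
  have ht0 : (0 : ℝ) < (t : ℝ) ^ 2 := by positivity
  have hl1 : (1 : ℝ) ≤ Real.log (t + 2) := by
    rw [Real.le_log_iff_exp_le (by linarith)]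
    have := Real.exp_one_lt_d9
    linarith
  rw [le_div_iff₀ ht0]
  have h2 : (t : ℝ) < L := by exact_mod_cast htL
  have h3 : (t : ℝ) ^ 2 ≤ (L : ℝ) ^ 2 := pow_le_pow_left₀ (Nat.cast_nonneg _) h2.le 2
  have h4 : M ≤ M * Real.log (t + 2) := le_mul_of_one_le_right hM hl1
  have h5 : 0 ≤ M * Real.log (t + 2) + W := by linarith
  calc P * (t : ℝ) ^ 2 ≤ (M * Real.log (t + 2) + W) * (t : ℝ) ^ 2 :=
        mul_le_mul_of_nonneg_right (by linarith) ht0.le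
    _ ≤ (M * Real.log (t + 2) + W) * K := mul_le_mul_of_nonneg_left (h3.trans hK) h5
    _ = _ := by ring

theorem VSA (mno : MNO_stmt) (shi : SHI_stmt) (shp : SHP_stmt) (zch : ZCH_stmt) (inp : INP_stmt)
    (plg : PLG_stmt) : VSA_stmt := by
  obtain ⟨C, hC, L, hL, hz⟩ := zch
  have hK1 : 256 * (8 * C + 5) ≤ 256 * (8 * C + 5) + (L : ℝ) ^ 2 := by
    have := sq_nonneg (L : ℝ); linarith
  have hK2 : (L : ℝ) ^ 2 ≤ 256 * (8 * C + 5) + (L : ℝ) ^ 2 := by linarith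
  refine ⟨256 * (8 * C + 5) + (L : ℝ) ^ 2, by positivity, ?_⟩
  intro k A Ω B t a d ht hTwo
  have hn : ∀ (S : Finset V) (a b d e : ℤ), (0 : ℝ) ≤ (#(nr S a b d e t) : ℝ) := fun _ _ _ _ _ => Nat.cast_nonneg _
  have hw : ∀ (a b d e : ℤ), (0 : ℝ) ≤ ∑ v ∈ nr Ω a b d e t, Pr {β | v ∈ B β} :=
    fun _ _ _ _ => sum_nonneg fun v _ => VSA_nonneg _
  by_cases htL : t < L
  · exact ⟨VSA_small2 _ _ _ _ t L ht htL (hn _ _ _ _ _) (hw _ _ _ _) hK2 (VSA_small true k A Ω B hTwo _ _ _ _ t ht),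
      VSA_small2 _ _ _ _ t L ht htL (hn _ _ _ _ _) (hw _ _ _ _) hK2 (VSA_small false k A Ω B hTwo _ _ _ _ t ht)⟩
  have ht1 : (1 : ℝ) ≤ t := by exact_mod_cast ht
  have hl0 : (0 : ℝ) ≤ Real.log (t + 2) := Real.log_nonneg (by linarith)
  have hup : ∀ (M W P : ℝ), 0 ≤ M → 0 ≤ W → P ≤ 256 * (8 * C + 5) * (M * Real.log (t + 2) + W) / (t : ℝ) ^ 2 →
      P ≤ (256 * (8 * C + 5) + (L : ℝ) ^ 2) * (M * Real.log (t + 2) + W) / (t : ℝ) ^ 2 := by
    intro M W P hM hW h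
    refine h.trans ?_
    apply div_le_div_of_nonneg_right _ (by positivity)
    exact mul_le_mul_of_nonneg_right hK1 (add_nonneg (mul_nonneg hM hl0) hW)
  have hs : 16 * (t / 16) ≤ t := Nat.mul_div_le t 16
  have hs2 : t ≤ 16 * (t / 16 + 1) := by omega
  obtain ⟨s, hsd⟩ : ∃ s : ℕ, s = t / 16 := ⟨_, rfl⟩
  rw [← hsd] at hs hs2
  have hLt : (L : ℤ) ≤ t := by omega
  constructor
  · obtain ⟨Z, z1, z2, z3, z4⟩ := hz true k a (a + 6 * t + 2 * s) (d + 2 * s) (d + 2 * t) (by omega) (by omega)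
      (fun _ => ⟨by omega, by omega⟩) (fun h => absurd h (by decide))
    have hrf := VSA_rfcard a (a + 6 * t + 2 * s) (d + 2 * s) (d + 2 * t) (8 * t) (3 * t) (by push_cast; omega) (by push_cast; omega)
    refine hup _ _ _ (hn _ _ _ _ _) (hw _ _ _ _) ?_
    refine VSA_fin _ C _ _ s t _ hC ht hs2 (VSA_nonneg _) (hn _ _ _ _ _) (hw _ _ _ _) hrf ?_
    refine VSA_core shi shp inp plg true k A Ω B hTwo a (a + 6 * t) d (d + 2 * t)
      a (a + 6 * t + 2 * s) (d + 2 * s) (d + 2 * t) s t C Z z1 z2 z3 z4 ?_ (by omega) (by omega) (by omega) (by omega)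
    intro c W i j hi0 hi hj0 hj h
    exact (mno c k W (a + 2 * i) (a + 6 * t + 2 * i) (d + 2 * j) (d + 2 * t + 2 * j)
      a (a + 6 * t + 2 * s) (d + 2 * s) (d + 2 * t)).1 (by omega) (by omega) (by omega) (by omega) (by omega) h
  · obtain ⟨Z, z1, z2, z3, z4⟩ := hz false k (a + 2 * s) (a + 2 * t) d (d + 6 * t + 2 * s) (by omega) (by omega)
      (fun h => absurd h (by decide)) (fun _ => ⟨by omega, by omega⟩)
    have hrf := VSA_rfcard (a + 2 * s) (a + 2 * t) d (d + 6 * t + 2 * s) (3 * t) (8 * t) (by push_cast; omega) (by push_cast; omega)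
    rw [Nat.mul_comm (3 * t)] at hrf
    refine hup _ _ _ (hn _ _ _ _ _) (hw _ _ _ _) ?_
    refine VSA_fin _ C _ _ s t _ hC ht hs2 (VSA_nonneg _) (hn _ _ _ _ _) (hw _ _ _ _) hrf ?_
    refine VSA_core shi shp inp plg false k A Ω B hTwo a (a + 2 * t) d (d + 6 * t)
      (a + 2 * s) (a + 2 * t) d (d + 6 * t + 2 * s) s t C Z z1 z2 z3 z4 ?_ (by omega) (by omega) (by omega) (by omega)
    intro c W i j hi0 hi hj0 hj h
    exact (mno c k W (a + 2 * i) (a + 2 * t + 2 * i) (d + 2 * j) (d + 6 * t + 2 * j)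
      (a + 2 * s) (a + 2 * t) d (d + 6 * t + 2 * s)).2 (by omega) (by omega) (by omega) (by omega) (by omega) h

end TP.TW
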